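import Pool.Agent.K4H92.NO.Spec2
set_option autoImplicit false

/-!
# The pivot rule in terms of the edges of the polyhedron
-/

namespace Pool.Agent.K4H92.NO

open Finset

/-- the polyhedron `A x ≤ b`, `x ≥ 0` -/
def polyhedron {m n : ℕ} (A : Fin m → Fin n → ℝ) (b : Fin m → ℝ) : Set (Fin n → ℝ) :=
  {x | (∀ i, ∑ j, A i j * x j ≤ b i) ∧ ∀ j, 0 ≤ x j}

/-- the objective function `c x` -/
def val {n : ℕ} (c x : Fin n → ℝ) : ℝ := ∑ j, c j * x j

/-- `x` and `y` are joined by an edge of `P` on which the objective function increases -/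
def ImprovingEdge {n : ℕ} (P : Set (Fin n → ℝ)) (c x y : Fin n → ℝ) : Prop :=
  IsExposed ℝ P (segment ℝ x y) ∧ val c x < val c y

/-- `P` has an unbounded edge at `x`, in the direction `d`, on which the objective function
increases -/
def UnboundedEdge {n : ℕ} (P : Set (Fin n → ℝ)) (c x d : Fin n → ℝ) : Prop :=
  IsExposed ℝ P {z | ∃ t : ℝ, 0 ≤ t ∧ z = x + t • d} ∧ 0 < val c d

/-- the names of the constraints: `inl i` for the row `i` of `A x ≤ b`, and `inr j` for `x j ≥ 0` -/
abbrev Name (m n : ℕ) : Type := Fin m ⊕ Fin n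

open Classical in
/-- the names of the constraints which hold with equality at `x` -/
noncomputable def tightAt {m n : ℕ} (A : Fin m → Fin n → ℝ) (b : Fin m → ℝ) (x : Fin n → ℝ) :
    Finset (Name m n) :=
  univ.filter (Sum.elim (fun i => ∑ j, A i j * x j = b i) fun j => x j = 0)

/-- what is told at the vertex `x`: the names of the tight constraints, and the names of the improving
edges. The name of an edge is the set of the constraints which are tight on the whole edge. -/
noncomputable def view {m n : ℕ} (A : Fin m → Fin n → ℝ) (b : Fin m → ℝ) (c x : Fin n → ℝ) :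
    Finset (Name m n) × Set (Finset (Name m n)) :=
  (tightAt A b x, {Z | (∃ y, ImprovingEdge (polyhedron A b) c x y ∧
    Z = tightAt A b x ∩ tightAt A b y) ∨ ∃ d, UnboundedEdge (polyhedron A b) c x d ∧
      Z = tightAt A b x ∩ tightAt A b (x + d)})

/-- everything told at `x 0, …, x k` -/
noncomputable def history {m n : ℕ} (A : Fin m → Fin n → ℝ) (b : Fin m → ℝ) (c : Fin n → ℝ)
    (x : ℕ → Fin n → ℝ) (k : ℕ) : List (Finset (Name m n) × Set (Finset (Name m n))) :=
  (List.range (k + 1)).map fun j => view A b c (x j)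

/-- `x 0, …, x N` is a path of `N` improving edges from the vertex `v` to an optimal vertex, or to a
vertex with an unbounded improving edge -/
def ImprovingPath {m n : ℕ} (A : Fin m → Fin n → ℝ) (b : Fin m → ℝ) (c v : Fin n → ℝ) (N : ℕ)
    (x : ℕ → Fin n → ℝ) : Prop :=
  x 0 = v ∧ (∀ k ≤ N, x k ∈ (polyhedron A b).extremePoints ℝ) ∧
    (∀ k < N, ImprovingEdge (polyhedron A b) c (x k) (x (k + 1))) ∧
    ((∀ y ∈ polyhedron A b, val c y ≤ val c (x N)) ∨ ∃ d, UnboundedEdge (polyhedron A b) c (x N) d)

/-- `ρ` is a rule which for all `A`, `b`, `c` and from every vertex finds a path `x 0, …, x N'` of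
`N' ≤ N` improving edges to an end, by answering at each `x k` with the name of the edge to follow -/
def Works (m n N : ℕ)
    (ρ : List (Finset (Name m n) × Set (Finset (Name m n))) → Finset (Name m n)) : Prop :=
  ∀ (A : Fin m → Fin n → ℝ) (b : Fin m → ℝ) (c : Fin n → ℝ),
    ∀ v ∈ (polyhedron A b).extremePoints ℝ,
    ∃ N' ≤ N, ∃ x, ImprovingPath A b c v N' x ∧
      (∀ k < N', tightAt A b (x k) ∩ tightAt A b (x (k + 1)) = ρ (history A b c x k)) ∧
      ((∀ y ∈ polyhedron A b, val c y ≤ val c (x N')) ∨
        ∃ d, UnboundedEdge (polyhedron A b) c (x N') d ∧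
          tightAt A b (x N') ∩ tightAt A b (x N' + d) = ρ (history A b c x N'))

open K4H92.LP in
theorem works_of_worksFor {m n N : ℕ}
    {ρ : List (Finset (Name m n) × Set (Finset (Name m n))) → Finset (Name m n)}
    (hρ : WorksFor m n N ρ) : Works m n N ρ := by
  classical
  intro A b c v hv
  have hP : ∀ b, polyhedron A b = PP (rows A) (rhs b) := by
    intro b
    ext x
    exact mem_PP.symm
  have hval : ∀ c x : Fin n → ℝ, val c x = lf c x := fun c x => (lf_apply c x).symm
  have htight : ∀ b x, tightAt A b x = tight (rows A) (rhs b) x := by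
    intro b x
    ext i
    rw [mem_tight, tightAt, mem_filter]
    rcases i with i | j
    · rw [rows_inl]
      simp [rhs]
    · rw [rows_inr]
      simp [rhs]
  have hview : ∀ (z : Hid m n) (x : Fin n → ℝ), Vert (rows A) (rhs z.1) x →
      view A z.1 z.2 x = LP.vw A z x := by
    intro z x hx
    rw [view, LP.vw, htight]
    congr 1
    ext Z
    constructor
    · rintro (⟨y, ⟨h1, h2⟩, rfl⟩ | ⟨d, ⟨h1, h2⟩, rfl⟩)
      · rw [hP] at h1
        rw [hval, hval] at h2
        obtain ⟨e, t, he, ht, hy, hc⟩ := dir_of_edge hx h1 h2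
        refine ⟨e, he, hc, ?_⟩
        rw [htight, hy]
        exact inter_tight ht
      · rw [hP] at h1
        rw [hval] at h2
        obtain ⟨e, t, he, ht, hy, hc, _⟩ := dir_of_ray hx h1 h2
        refine ⟨e, he, hc, ?_⟩
        rw [htight, hy]
        exact inter_tight ht
    · rintro ⟨e, he, hc, rfl⟩
      rcases step_end hx he with h | ⟨t, ht, h1, h2⟩
      · right
        refine ⟨e, ⟨?_, ?_⟩, ?_⟩
        · rw [hP]; exact ray_exposed' hx he h
        · rw [hval]; exact hc
        · have := inter_tight (a := rows A) (β := rhs z.1) (x := x) (e := e) (t := 1) one_pos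
          rw [one_smul] at this
          rw [htight, this]
          rfl
      · left
        have hstep : Step (rows A) (rhs z.1) (lf z.2) x (x + t • e) :=
          ⟨hx, h1, e, t, he, hc, ht, rfl, h2⟩
        refine ⟨x + t • e, ⟨?_, ?_⟩, ?_⟩
        · rw [hP]; exact hstep.exposed
        · rw [hval, hval]; exact hstep.lt
        · rw [htight]
          exact (inter_tight ht).symm
  rw [hP] at hv
  obtain ⟨N, hN, x, h0, ⟨h1, h2⟩, h3, h4⟩ := hρ (A, b, c) v (Vert.of_extreme hv)
  have hhist : ∀ k ≤ N, history A b c x k = hist A (b, c) x k := by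
    intro k hk
    apply List.map_congr_left
    intro j hj
    have hj' : j ≤ N := by
      have := List.mem_range.1 hj
      omega
    exact hview (b, c) (x j) (h1 j hj')
  have hstep : ∀ k < N, Step (rows A) (rhs b) (lf c) (x k) (x (k + 1)) := by
    intro k hk
    obtain ⟨e, t, he, ht, hx, hc⟩ := h2 k hk
    refine ⟨h1 k hk.le, h1 (k + 1) hk, e, t, he, hc, ht, hx, fun s hs => ?_⟩
    have hv := h1 (k + 1) hk
    rw [hx] at hv
    obtain ⟨i, hi, hie⟩ := tight_pos (h1 k hk.le) ht he hv
    rw [mem_tight, map_add, map_smul, smul_eq_mul] at hi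
    have := hs i
    rw [map_add, map_smul, smul_eq_mul] at this
    have h5 : s * rows A i e ≤ t * rows A i e := by
      have : rows A i (x k) + s * rows A i e ≤ rows A i (x k) + t * rows A i e := by
        rw [hi]; exact this
      linarith
    exact le_of_mul_le_mul_right h5 hie
  have hend : (∀ y ∈ polyhedron A b, val c y ≤ val c (x N)) ∨
      ∃ d, UnboundedEdge (polyhedron A b) c (x N) d ∧
        tightAt A b (x N) ∩ tightAt A b (x N + d) = ρ (history A b c x N) := by
    rcases h4 with h | ⟨e, he, hc, hu, hz⟩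
    · left
      intro y hy
      rw [hval, hval]
      rw [hP] at hy
      exact h y hy
    · right
      refine ⟨e, ⟨?_, ?_⟩, ?_⟩
      · rw [hP]
        refine ray_exposed' (h1 N le_rfl) he fun t ht i => ?_
        rw [map_add, map_smul, smul_eq_mul]
        have g1 := mul_nonpos_of_nonneg_of_nonpos ht (hu i)
        have g2 := (h1 N le_rfl).1 i
        linarith
      · rw [hval]; exact hc
      · have := inter_tight (a := rows A) (β := rhs b) (x := x N) (e := e) (t := 1) one_pos
        rw [one_smul] at this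
        rw [htight, htight, this, hhist N le_rfl, ← hz]
        rfl
  refine ⟨N, hN, x, ⟨h0, fun k hk => ?_, fun k hk => ⟨?_, ?_⟩, ?_⟩, fun k hk => ?_, hend⟩
  · rw [hP]; exact (h1 k hk).extreme
  · rw [hP]; exact (hstep k hk).exposed
  · rw [hval, hval]; exact (hstep k hk).lt
  · rcases hend with h | ⟨d, h, _⟩
    · exact Or.inl h
    · exact Or.inr ⟨d, h⟩
  · obtain ⟨e, t, he, ht, hx, hc⟩ := h2 k hk
    rw [hhist k hk.le, ← h3 k hk e t ht he hx, htight, htight, hx]
    exact inter_tight ht

end Pool.Agent.K4H92.NO
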