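import Pool.Agent.K4H92.NO.Sg
import Pool.Agent.H247R2.Warren
set_option autoImplicit false

/-!
# The number of sign vectors of linear programs
-/

namespace Pool.Agent.K4H92.NO

open Finset Pool.Agent.K4H92.LP MvPolynomial

variable {m n : ℕ}

/-- the variables: the entries of `A`, `b` and `c` -/
abbrev Va (m n : ℕ) : Type := (Fin m × Fin n) ⊕ (Fin m ⊕ Fin n)

/-- the values of the variables -/
def pt (z : Data m n) : Va m n → ℝ :=
  Sum.elim (fun p => z.1 p.1 p.2) (Sum.elim z.2.1 z.2.2)

/-- the rows as polynomials -/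
noncomputable def rowP : Option (Ix m n) → Fin n → MvPolynomial (Va m n) ℝ
  | some (Sum.inl i) => fun l => X (Sum.inl (i, l))
  | some (Sum.inr j) => fun l => C (if l = j then -1 else 0)
  | none => fun l => X (Sum.inr (Sum.inr l))

/-- the right sides as polynomials -/
noncomputable def rhsP : Ix m n → MvPolynomial (Va m n) ℝ
  | Sum.inl i => X (Sum.inr (Sum.inl i))
  | Sum.inr _ => 0

theorem eval_rowP (z : Data m n) (r : Option (Ix m n)) (l : Fin n) :
    eval (pt z) (rowP r l) = row z r l := by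
  rcases r with _ | (i | j)
  · simp [rowP, row, pt]
  · simp [rowP, row, pt]
  · simp only [rowP, row, eval_C]

theorem eval_rhsP (z : Data m n) (i : Ix m n) : eval (pt z) (rhsP i) = rhs z.2.1 i := by
  rcases i with i | j
  · simp [rhsP, rhs, pt]
  · simp [rhsP, rhs]

theorem deg_rowP (r : Option (Ix m n)) (l : Fin n) : (rowP r l).totalDegree ≤ 1 := by
  rcases r with _ | (i | j)
  · simp [rowP]
  · simp [rowP]
  · simp only [rowP, totalDegree_C]
    exact Nat.zero_le _

theorem deg_rhsP (i : Ix m n) : (rhsP i).totalDegree ≤ 1 := by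
  rcases i with i | j
  · simp [rhsP]
  · simp [rhsP]

/-- the determinants as polynomials -/
noncomputable def DP (r : Fin n → Option (Ix m n)) : MvPolynomial (Va m n) ℝ :=
  Matrix.det (Matrix.of fun k => rowP (r k))

theorem eval_DP (z : Data m n) (r : Fin n → Option (Ix m n)) :
    eval (pt z) (DP r) = D z r := by
  unfold DP D
  rw [RingHom.map_det]
  congr 1
  ext k l
  simp only [RingHom.mapMatrix_apply, Matrix.map_apply, Matrix.of_apply]
  exact eval_rowP z (r k) l

theorem deg_DP (r : Fin n → Option (Ix m n)) : (DP r).totalDegree ≤ n := by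
  unfold DP
  rw [Matrix.det_apply]
  refine totalDegree_finsetSum_le fun σ _ => ?_
  refine (totalDegree_smul_le _ _).trans ?_
  refine (totalDegree_finset_prod _ _).trans ?_
  calc ∑ k, (Matrix.of (fun k => rowP (r k)) (σ k) k).totalDegree ≤ ∑ _k : Fin n, 1 :=
        Finset.sum_le_sum fun k _ => deg_rowP _ _
    _ = n := by simp

/-- the values at the solutions as polynomials -/
noncomputable def qP (r : Fin n → Ix m n) (i : Ix m n) : MvPolynomial (Va m n) ℝ :=
  DP (fun k => some (r k)) * rhsP i -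
    ∑ k, rhsP (r k) * DP (Function.update (fun k => some (r k)) k (some i))

theorem eval_qP (z : Data m n) (r : Fin n → Ix m n) (i : Ix m n) :
    eval (pt z) (qP r i) = q z r i := by
  unfold qP q
  simp only [map_sub, map_mul, map_sum, eval_DP, eval_rhsP]

theorem deg_qP (r : Fin n → Ix m n) (i : Ix m n) : (qP r i).totalDegree ≤ n + 1 := by
  unfold qP
  refine (totalDegree_sub _ _).trans (max_le ?_ ?_)
  · refine (totalDegree_mul _ _).trans ?_
    exact add_le_add (deg_DP _) (deg_rhsP _)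
  · refine totalDegree_finsetSum_le fun k _ => ?_
    refine (totalDegree_mul _ _).trans ?_
    rw [add_comm]
    exact add_le_add (deg_DP _) (deg_rhsP _)

/-- all polynomials -/
noncomputable def allP : J m n → MvPolynomial (Va m n) ℝ
  | Sum.inl r => DP r
  | Sum.inr p => qP p.1 p.2

theorem deg_allP (j : J m n) : (allP j).totalDegree ≤ n + 1 := by
  rcases j with r | p
  · exact (deg_DP r).trans (Nat.le_succ n)
  · exact deg_qP p.1 p.2

theorem sign_allP (z : Data m n) (j : J m n) :
    SignType.sign (eval (pt z) (allP j)) = sg z j := by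
  rcases j with r | p
  · simp only [allP, sg, eval_DP]
  · simp only [allP, sg, eval_qP]

theorem card_J (m n : ℕ) : Fintype.card (J m n) ≤ 2 * (m + n + 1) ^ (n + 1) := by
  have h : Fintype.card (J m n) = (m + n + 1) ^ n + (m + n) ^ n * (m + n) := by
    simp [J, Ix]
  rw [h, ← pow_succ]
  have h1 : (m + n + 1) ^ n ≤ (m + n + 1) ^ (n + 1) :=
    Nat.pow_le_pow_right (Nat.succ_pos _) (Nat.le_succ n)
  have h2 : (m + n) ^ (n + 1) ≤ (m + n + 1) ^ (n + 1) :=
    Nat.pow_le_pow_left (Nat.le_succ _) _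
  omega

theorem count_arith (m n c : ℕ) (hc : c ≤ 2 * (m + n + 1) ^ (n + 1)) :
    (4 * (c * (n + 1)) + 1) ^ (m * n + (m + n)) ≤ 2 ^ ((m + n + 3) ^ 4) := by
  have h0 : m + n + 1 ≤ 2 ^ (m + n) := Nat.lt_two_pow_self
  have h1 : 4 * (c * (n + 1)) + 1 ≤ 2 ^ (4 + (m + n) * (n + 2)) := by
    have ha : c * (n + 1) ≤ 2 * (m + n + 1) ^ (n + 2) := by
      calc c * (n + 1) ≤ (2 * (m + n + 1) ^ (n + 1)) * (m + n + 1) :=
            Nat.mul_le_mul hc (by omega)
        _ = 2 * (m + n + 1) ^ (n + 2) := by ring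
    have hb : (m + n + 1) ^ (n + 2) ≤ 2 ^ ((m + n) * (n + 2)) := by
      rw [pow_mul]
      exact Nat.pow_le_pow_left h0 _
    have hd : 1 ≤ (m + n + 1) ^ (n + 2) := Nat.one_le_pow _ _ (Nat.succ_pos _)
    calc 4 * (c * (n + 1)) + 1 ≤ 16 * (m + n + 1) ^ (n + 2) := by omega
      _ ≤ 16 * 2 ^ ((m + n) * (n + 2)) := Nat.mul_le_mul_left _ hb
      _ = 2 ^ (4 + (m + n) * (n + 2)) := by rw [pow_add]; norm_num
  calc (4 * (c * (n + 1)) + 1) ^ (m * n + (m + n))
      ≤ (2 ^ (4 + (m + n) * (n + 2))) ^ (m * n + (m + n)) := Nat.pow_le_pow_left h1 _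
    _ = 2 ^ ((4 + (m + n) * (n + 2)) * (m * n + (m + n))) := by rw [← pow_mul]
    _ ≤ 2 ^ ((m + n + 3) ^ 4) := by
        refine Nat.pow_le_pow_right (by norm_num) ?_
        have h3 : 4 + (m + n) * (n + 2) ≤ (m + n + 3) ^ 2 := by nlinarith
        have h4 : m * n + (m + n) ≤ (m + n + 3) ^ 2 := by nlinarith
        calc (4 + (m + n) * (n + 2)) * (m * n + (m + n))
            ≤ (m + n + 3) ^ 2 * (m + n + 3) ^ 2 := Nat.mul_le_mul h3 h4
          _ = (m + n + 3) ^ 4 := by ring

theorem existsTypes_of_sg {m n : ℕ} (h : ∀ z z' : Data m n, sg z = sg z' → SameType z z') :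
    ExistsTypes m n := by
  classical
  set S : Finset (J m n → SignType) := Finset.univ.filter (fun σ => ∃ z, sg z = σ) with hS
  have hz : ∀ σ : S, ∃ z : Data m n, sg z = (σ : J m n → SignType) := fun σ =>
    (Finset.mem_filter.1 σ.2).2
  choose g hg using hz
  refine ⟨Finset.univ.image g, ?_, fun z => ?_⟩
  · refine Finset.card_image_le.trans ?_
    rw [Finset.card_univ, Fintype.card_coe]
    have hc := Pool.Agent.H247R2.Warren.sign_count (allP (m := m) (n := n)) (n + 1) deg_allP S
      (by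
        intro σ hσ
        obtain ⟨z, hz⟩ := (Finset.mem_filter.1 hσ).2
        refine ⟨pt z, fun j => ?_⟩
        rw [sign_allP, hz])
    have hk : Fintype.card (Va m n) = m * n + (m + n) := by simp [Va]
    rw [hk] at hc
    exact hc.trans (count_arith m n _ (card_J m n))
  · have hm : sg z ∈ S := Finset.mem_filter.2 ⟨Finset.mem_univ _, z, rfl⟩
    exact ⟨g ⟨sg z, hm⟩, Finset.mem_image_of_mem _ (Finset.mem_univ _), h _ _ (hg ⟨sg z, hm⟩).symm⟩

end Pool.Agent.K4H92.NO
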