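import Pool.Agent.K4H92.LP.KK.Core
set_option autoImplicit false

/-!
# Walks in the polyhedron of the rows in `K`
-/

namespace Pool.Agent.K4H92.NO

open Finset Pool.Agent.K4H92.LP

variable {E : Type*} [AddCommGroup E] [Module ℝ E] {I : Type*} [Fintype I] [DecidableEq I]

/-- the polyhedron of the rows in `K` -/
def PK (a : I → E →ₗ[ℝ] ℝ) (β : I → ℝ) (K : Finset I) : Set E := {x | ∀ i ∈ K, a i x ≤ β i}

open Classical in
/-- the tight rows in `K` -/
noncomputable def tk (a : I → E →ₗ[ℝ] ℝ) (β : I → ℝ) (K : Finset I) (x : E) : Finset I :=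
  K.filter fun i => a i x = β i

/-- `x` is a vertex of the polyhedron of the rows in `K` -/
def VK (a : I → E →ₗ[ℝ] ℝ) (β : I → ℝ) (K : Finset I) (x : E) : Prop :=
  x ∈ PK a β K ∧ Spans a (tk a β K x)

open Classical in
/-- the name of a direction -/
noncomputable def zr (a : I → E →ₗ[ℝ] ℝ) (T : Finset I) (e : E) : Finset I :=
  T.filter fun i => a i e = 0

/-- the names of the improving directions -/
def im (a : I → E →ₗ[ℝ] ℝ) (β : I → ℝ) (c : E →ₗ[ℝ] ℝ) (K : Finset I) (x : E) : Set (Finset I) :=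
  {Z | ∃ e, Dir a (tk a β K x) e ∧ 0 < c e ∧ Z = zr a (tk a β K x) e}

/-- `y` is the other end of the improving edge named `Z` at `x` -/
def St (a : I → E →ₗ[ℝ] ℝ) (β : I → ℝ) (c : E →ₗ[ℝ] ℝ) (K : Finset I) (x : E) (Z : Finset I)
    (y : E) : Prop :=
  VK a β K x ∧ VK a β K y ∧ ∃ e, ∃ t : ℝ, Dir a (tk a β K x) e ∧ 0 < c e ∧
    Z = zr a (tk a β K x) e ∧ 0 < t ∧ y = x + t • e ∧ ∃ i ∈ tk a β K y, 0 < a i e

variable {a : I → E →ₗ[ℝ] ℝ} {β : I → ℝ} {c : E →ₗ[ℝ] ℝ} {K K' S : Finset I} {x y : E}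
  {Z : Finset I}

theorem mem_tk {i : I} : i ∈ tk a β K x ↔ i ∈ K ∧ a i x = β i := by simp [tk]

theorem mem_zr {T : Finset I} {e : E} {i : I} : i ∈ zr a T e ↔ i ∈ T ∧ a i e = 0 := by simp [zr]

theorem tight_sa {i : I} : i ∈ tight (sa a K) (sb β K) x ↔ (i ∈ K → a i x = β i) := by
  rw [sub_tight, mem_tight]

theorem lin_sa (x e : E) : lin (sa a K) (tight (sa a K) (sb β K) x) e = lin a (tk a β K x) e := by
  rw [lin_apply, lin_apply]
  congr 1
  have h1 : tk a β K x ⊆ tight (sa a K) (sb β K) x := fun i hi => by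
    rw [tight_sa]
    exact fun _ => (mem_tk.1 hi).2
  rw [← sum_subset h1 fun i hi hi' => ?_]
  · refine sum_congr rfl fun i hi => ?_
    rw [sa, if_pos (mem_tk.1 hi).1]
  · by_cases hK : i ∈ K
    · exact absurd (mem_tk.2 ⟨hK, tight_sa.1 hi hK⟩) hi'
    · rw [sa, if_neg hK]; rfl

theorem dir_sa {e : E} :
    Dir (sa a K) (tight (sa a K) (sb β K) x) e ↔ Dir a (tk a β K x) e := by
  have h1 : ∀ i ∈ tk a β K x, i ∈ tight (sa a K) (sb β K) x ∧ sa a K i = a i := fun i hi =>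
    ⟨tight_sa.2 fun _ => (mem_tk.1 hi).2, by rw [sa, if_pos (mem_tk.1 hi).1]⟩
  have h2 : ∀ i ∈ tight (sa a K) (sb β K) x, i ∈ tk a β K x ∨ sa a K i = 0 := by
    intro i hi
    by_cases hK : i ∈ K
    · exact Or.inl (mem_tk.2 ⟨hK, tight_sa.1 hi hK⟩)
    · exact Or.inr (by rw [sa, if_neg hK])
  constructor
  · rintro ⟨p1, p2, p3⟩
    refine ⟨fun i hi => ?_, by rw [← lin_sa]; exact p2, fun g hg => p3 g fun i hi h0 => ?_⟩
    · have := p1 i (h1 i hi).1
      rwa [(h1 i hi).2] at this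
    · rcases h2 i hi with h3 | h3
      · rw [(h1 i h3).2] at h0 ⊢
        exact hg i h3 h0
      · rw [h3]; rfl
  · rintro ⟨p1, p2, p3⟩
    refine ⟨fun i hi => ?_, by rw [lin_sa]; exact p2, fun g hg => p3 g fun i hi h0 => ?_⟩
    · rcases h2 i hi with h3 | h3
      · rw [(h1 i h3).2]; exact p1 i h3
      · rw [h3]; exact le_rfl
    · have := hg i (h1 i hi).1
      rw [(h1 i hi).2] at this
      exact this h0

theorem vert_sa : Vert (sa a K) (sb β K) x ↔ VK a β K x := by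
  constructor
  · rintro ⟨h1, h2⟩
    refine ⟨sub_mem.1 h1, fun g hg => h2 g fun i hi => ?_⟩
    by_cases hK : i ∈ K
    · rw [sa, if_pos hK]
      exact hg i (mem_tk.2 ⟨hK, tight_sa.1 hi hK⟩)
    · rw [sa, if_neg hK]; rfl
  · rintro ⟨h1, h2⟩
    refine ⟨sub_mem.2 h1, fun g hg => h2 g fun i hi => ?_⟩
    have := hg i (tight_sa.2 fun _ => (mem_tk.1 hi).2)
    rwa [sa, if_pos (mem_tk.1 hi).1] at this

theorem zr_inj {T : Finset I} {e e' : E} (h : Dir a T e) (h' : Dir a T e')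
    (hz : zr a T e = zr a T e') : e = e' := by
  obtain ⟨t, ht⟩ := h.2.2 e' (fun i hi h0 => by
    have : i ∈ zr a T e := mem_zr.2 ⟨hi, h0⟩
    rw [hz] at this
    exact (mem_zr.1 this).2)
  exact (h.eq_of_smul h' ht).symm

theorem St.unique {y' : E} (h : St a β c K x Z y) (h' : St a β c K x Z y') : y = y' := by
  obtain ⟨_, hy, e, t, he, _, hZ, ht, rfl, k, hk, hke⟩ := h
  obtain ⟨_, hy', e', t', he', _, hZ', ht', rfl, k', hk', hke'⟩ := h'
  obtain rfl := zr_inj he he' (hZ.symm.trans hZ')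
  have h1 : t' ≤ t := by
    have h2 := hy'.1 k (mem_tk.1 hk).1
    rw [← (mem_tk.1 hk).2, map_add, map_add, map_smul, map_smul, smul_eq_mul, smul_eq_mul] at h2
    have h3 : t' * a k e ≤ t * a k e := by linarith
    exact le_of_mul_le_mul_right h3 hke
  have h1' : t ≤ t' := by
    have h2 := hy.1 k' (mem_tk.1 hk').1
    rw [← (mem_tk.1 hk').2, map_add, map_add, map_smul, map_smul, smul_eq_mul, smul_eq_mul] at h2
    have h3 : t * a k' e ≤ t' * a k' e := by linarith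
    exact le_of_mul_le_mul_right h3 hke'
  rw [le_antisymm h1' h1]

theorem St.lt (h : St a β c K x Z y) : c x < c y := by
  obtain ⟨_, _, e, t, _, hc, _, ht, rfl, _⟩ := h
  rw [map_add, map_smul, smul_eq_mul]
  have := mul_pos ht hc
  linarith

theorem St.mem (h : St a β c K x Z y) : Z ∈ im a β c K x := by
  obtain ⟨_, _, e, t, he, hc, hZ, _⟩ := h
  exact ⟨e, he, hc, hZ⟩

theorem St.sub (h : St a β c K x Z y) : Z ⊆ tk a β K y := by
  obtain ⟨_, _, e, t, _, _, rfl, _, rfl, _⟩ := h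
  intro i hi
  obtain ⟨h1, h2⟩ := mem_zr.1 hi
  obtain ⟨h3, h4⟩ := mem_tk.1 h1
  refine mem_tk.2 ⟨h3, ?_⟩
  rw [map_add, map_smul, h2, h4]; simp

/-- an improving direction leads to another vertex or to infinity -/
theorem exists_st (hx : VK a β K x) (hZ : Z ∈ im a β c K x) :
    (∃ y, St a β c K x Z y) ∨ ∃ e, Dir a (tk a β K x) e ∧ 0 < c e ∧ Z = zr a (tk a β K x) e ∧
      ∀ i ∈ K, a i e ≤ 0 := by
  obtain ⟨e, he, hc, rfl⟩ := hZ
  have he' := dir_sa (β := β).2 he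
  have hx' := vert_sa.2 hx
  rcases step_end hx' he' with h | ⟨t, ht, h1, h2⟩
  · right
    refine ⟨e, he, hc, rfl, fun i hi => ?_⟩
    have := unbounded_iff hx'.1 h i
    rwa [sa, if_pos hi] at this
  · left
    obtain ⟨k, hk, hke⟩ := block_row hx' ht he' h1
    have hkK : k ∈ K := by
      by_contra hcon
      rw [sa, if_neg hcon] at hke
      exact lt_irrefl _ hke
    rw [sa, if_pos hkK] at hke
    exact ⟨x + t • e, hx, vert_sa.1 h1, e, t, he, hc, rfl, ht, rfl, k,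
      mem_tk.2 ⟨hkK, tight_sa.1 hk hkK⟩, hke⟩

/-- a bounded direction is not unbounded -/
theorem St.not_unb (h : St a β c K x Z y) : ¬ ∃ e, Dir a (tk a β K x) e ∧
    Z = zr a (tk a β K x) e ∧ ∀ i ∈ K, a i e ≤ 0 := by
  rintro ⟨e', he', hZ', hu⟩
  obtain ⟨_, hy, e, t, he, _, hZ, ht, rfl, k, hk, hke⟩ := h
  obtain rfl := zr_inj he he' (hZ.symm.trans hZ')
  exact absurd (hu k (mem_tk.1 hk).1) (not_le.2 hke)

/-- fewer rows, the same vertex -/
theorem tk_sub (hK : K' ⊆ K) (h : tk a β K x ⊆ K') : tk a β K' x = tk a β K x := by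
  ext i
  rw [mem_tk, mem_tk]
  constructor
  · rintro ⟨h1, h2⟩
    exact ⟨hK h1, h2⟩
  · rintro ⟨h1, h2⟩
    exact ⟨h (mem_tk.2 ⟨h1, h2⟩), h2⟩

theorem im_sub (hK : K' ⊆ K) (h : tk a β K x ⊆ K') : im a β c K' x = im a β c K x := by
  rw [im, im, tk_sub hK h]

theorem VK.sub (hK : K' ⊆ K) (h : tk a β K x ⊆ K') (hx : VK a β K x) : VK a β K' x := by
  refine ⟨fun i hi => hx.1 i (hK hi), ?_⟩
  rw [tk_sub hK h]
  exact hx.2

theorem St.sub_rows (hK : K' ⊆ K) (hx : tk a β K x ⊆ K') (hy : tk a β K y ⊆ K')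
    (h : St a β c K x Z y) : St a β c K' x Z y := by
  obtain ⟨h1, h2, h3⟩ := h
  refine ⟨h1.sub hK hx, h2.sub hK hy, ?_⟩
  rw [tk_sub hK hx, tk_sub hK hy]
  exact h3

/-- a vertex without improving direction in the face is optimal in the face -/
theorem face_le (hx : VK a β K x) (hS : S ⊆ tk a β K x)
    (hno : ∀ Z ∈ im a β c K x, ¬ S ⊆ Z) {y : E} (hy : y ∈ PK a β K)
    (hyS : ∀ i ∈ S, a i y = β i) : c y ≤ c x := by
  classical
  set T := tk a β K x with hT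
  have hfin : {e | Dir a T e}.Finite := dir_finite a T
  set g : E →ₗ[ℝ] ℝ := ∑ i ∈ S, a i with hg
  have hga : ∀ e, g e = ∑ i ∈ S, a i e := fun e => by simp [hg, LinearMap.sum_apply]
  set M : ℝ := ∑ e ∈ hfin.toFinset, |c e| / |g e| with hM
  have hM0 : 0 ≤ M := sum_nonneg fun e _ => div_nonneg (abs_nonneg _) (abs_nonneg _)
  have key : ∀ e, Dir a T e → (c + M • g) e ≤ 0 := by
    intro e he
    have e1 : (c + M • g) e = c e + M * g e := by simp
    have hle : ∀ i ∈ S, a i e ≤ 0 := fun i hi => he.1 i (hS hi)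
    have hg0 : g e ≤ 0 := by rw [hga]; exact sum_nonpos hle
    rw [e1]
    rcases hg0.lt_or_eq with h1 | h1
    · have h2 : |c e| / |g e| ≤ M :=
        single_le_sum (f := fun e => |c e| / |g e|)
          (fun e _ => div_nonneg (abs_nonneg _) (abs_nonneg _)) (hfin.mem_toFinset.2 he)
      have h3 : M * g e ≤ (|c e| / |g e|) * g e := mul_le_mul_of_nonpos_right h2 h1.le
      have h4 : (|c e| / |g e|) * g e = -|c e| := by
        rw [abs_of_neg h1, div_neg, neg_mul, div_mul_cancel₀ _ h1.ne]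
      have h5 := le_abs_self (c e)
      linarith
    · have h2 : ∀ i ∈ S, a i e = 0 := by
        rw [hga] at h1
        exact (sum_eq_zero_iff_of_nonpos hle).1 h1
      have h3 : ¬ 0 < c e := fun h => hno (zr a T e) ⟨e, he, h, rfl⟩ fun i hi =>
        mem_zr.2 ⟨hS hi, h2 i hi⟩
      rw [h1, mul_zero, add_zero]
      exact not_lt.1 h3
  have h1 := vert_le (vert_sa.2 hx) (f := c + M • g) (fun e he => key e (dir_sa.1 he))
    (sub_mem.2 hy)
  have e1 : ∀ v, (c + M • g) v = c v + M * g v := fun v => by simp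
  rw [e1, e1] at h1
  have h2 : g y = g x := by
    rw [hga, hga]
    exact sum_congr rfl fun i hi => by rw [hyS i hi, (mem_tk.1 (hS hi)).2]
  rw [h2] at h1
  linarith

open Classical in
/-- the rows which are met above the level of `x` in the face -/
noncomputable def ak (a : I → E →ₗ[ℝ] ℝ) (β : I → ℝ) (c : E →ₗ[ℝ] ℝ) (K S : Finset I) (x : E) :
    Finset I :=
  K.filter fun i => i ∉ S ∧ ∃ y ∈ PK a β K, (∀ j ∈ S, a j y = β j) ∧ a i y = β i ∧ c x < c y

theorem mem_ak {i : I} : i ∈ ak a β c K S x ↔ i ∈ K ∧ i ∉ S ∧ ∃ y ∈ PK a β K,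
    (∀ j ∈ S, a j y = β j) ∧ a i y = β i ∧ c x < c y := by
  simp [ak]

theorem St.ak_ne (h : St a β c K x Z y) (hS : S ⊆ Z) : (ak a β c K S x).Nonempty := by
  have hlt := h.lt
  have hsub := h.sub
  obtain ⟨_, hy, e, t, _, _, rfl, _, rfl, k, hk, hke⟩ := h
  refine ⟨k, mem_ak.2 ⟨(mem_tk.1 hk).1, fun hkS => ?_, _, hy.1,
    fun j hj => (mem_tk.1 (hsub (hS hj))).2, (mem_tk.1 hk).2, hlt⟩⟩
  have := (mem_zr.1 (hS hkS)).2
  rw [this] at hke
  exact lt_irrefl _ hke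

theorem no_dir (hx : VK a β K x) (hZ : Z ∈ im a β c K x) (h : K ⊆ Z) : False := by
  obtain ⟨e, he, hc, rfl⟩ := hZ
  apply he.ne_zero
  apply hx.2
  intro i hi
  exact (mem_zr.1 (h (mem_tk.1 hi).1)).2

end Pool.Agent.K4H92.NO
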