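import Pool.Agent.K4H92.NO.Face
set_option autoImplicit false

/-!
# Finite families of linear programs which look the same so far
-/

namespace Pool.Agent.K4H92.NO

open Finset Pool.Agent.K4H92.LP

/-- what is told at a vertex: the tight rows and the names of the improving directions -/
abbrev Vw (I : Type*) : Type _ := Finset I × Set (Finset I)

variable {E : Type*} [AddCommGroup E] [Module ℝ E] {I : Type*} [Fintype I] [DecidableEq I]
  {Ω : Type*} [DecidableEq Ω]
  (a : Ω → I → E →ₗ[ℝ] ℝ) (β : Ω → I → ℝ) (c : Ω → E →ₗ[ℝ] ℝ)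

/-- the view at `x` in the program `h` with the rows in `K` -/
noncomputable def vw (K : Finset I) (h : Ω) (x : E) : Vw I :=
  (tk (a h) (β h) K x, im (a h) (β h) (c h) K x)

open Classical in
/-- the other end of the edge `Z` -/
noncomputable def mv (K : Finset I) (h : Ω) (x : E) (Z : Finset I) : Option E :=
  if hh : ∃ y, St (a h) (β h) (c h) K x Z y then some hh.choose else none

/-- what is told after the move `Z`, `none` if the edge is unbounded -/
noncomputable def out (K : Finset I) (h : Ω) (x : E) (Z : Finset I) : Option (Vw I) :=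
  (mv a β c K h x Z).map (vw a β c K h)

/-- the vertices after the move `Z` -/
noncomputable def nx (K Z : Finset I) (x : Ω → E) : Ω → E := fun h =>
  (mv a β c K h (x h) Z).getD (x h)

open Classical in
/-- the members of `X` which tell `o` after the move `Z` -/
noncomputable def cls (K Z : Finset I) (X : Finset Ω) (x : Ω → E) (o : Option (Vw I)) : Finset Ω :=
  X.filter fun h => out a β c K h (x h) Z = o

/-- `x h` is a vertex with the view `w` for all `h` in `X` -/
def Node (K : Finset I) (X : Finset Ω) (x : Ω → E) (w : Vw I) : Prop :=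
  ∀ h ∈ X, VK (a h) (β h) K (x h) ∧ vw a β c K h (x h) = w

/-- a strategy which knows that the program is in `X` and ends in `N` pivots -/
inductive Sol (K : Finset I) : ℕ → Finset Ω → (Ω → E) → Vw I → Prop
  | opt (N : ℕ) (X : Finset Ω) (x : Ω → E) (w : Vw I) (h : w.2 = ∅) : Sol K N X x w
  | move (N : ℕ) (X : Finset Ω) (x : Ω → E) (w : Vw I) (Z : Finset I) (hZ : Z ∈ w.2)
      (h : ∀ w', (cls a β c K Z X x (some w')).Nonempty →
        Sol K N (cls a β c K Z X x (some w')) (nx a β c K Z x) w') : Sol K (N + 1) X x w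

/-- within `N` moves in the face `S` we come either to the best vertex or to a move after which at
least `η` further members of `Y` are excluded, whatever is told; at most `lam` are excluded so far, and
each further move excludes at most `η` -/
inductive Win (Y : Finset Ω) (K S : Finset I) (η : ℝ) :
    ℝ → Finset Ω → (Ω → E) → Vw I → ℕ → Prop
  | opt (lam : ℝ) (X : Finset Ω) (x : Ω → E) (w : Vw I) (N : ℕ) (h : ∀ Z ∈ w.2, ¬ S ⊆ Z) :
      Win Y K S η lam X x w N
  | unb (lam : ℝ) (X : Finset Ω) (x : Ω → E) (w : Vw I) (N : ℕ) (Z : Finset I) (hZ : Z ∈ w.2)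
      (hS : S ⊆ Z) (h : ((Y \ cls a β c K Z X x none).card : ℝ) ≤ lam + η) :
      Win Y K S η lam X x w N
  | info (lam : ℝ) (X : Finset Ω) (x : Ω → E) (w : Vw I) (N : ℕ) (Z : Finset I) (hZ : Z ∈ w.2)
      (hS : S ⊆ Z) (h : ∀ o, lam + η < ((Y \ cls a β c K Z X x o).card : ℝ)) :
      Win Y K S η lam X x w N
  | step (lam : ℝ) (X : Finset Ω) (x : Ω → E) (w : Vw I) (N : ℕ) (Z : Finset I) (w' : Vw I)
      (hZ : Z ∈ w.2) (hS : S ⊆ Z)
      (hc : ((Y \ cls a β c K Z X x (some w')).card : ℝ) ≤ lam + η)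
      (h : Win Y K S η (lam + η) (cls a β c K Z X x (some w')) (nx a β c K Z x) w' N) :
      Win Y K S η lam X x w (N + 1)

variable {a β c}

theorem mv_eq {K : Finset I} {h : Ω} {x y : E} {Z : Finset I}
    (hs : St (a h) (β h) (c h) K x Z y) : mv a β c K h x Z = some y := by
  have hh : ∃ y, St (a h) (β h) (c h) K x Z y := ⟨y, hs⟩
  rw [mv, dif_pos hh]
  exact congrArg some (hh.choose_spec.unique hs)

theorem of_mv {K : Finset I} {h : Ω} {x y : E} {Z : Finset I} (hs : mv a β c K h x Z = some y) :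
    St (a h) (β h) (c h) K x Z y := by
  rw [mv] at hs
  split_ifs at hs with hh
  obtain rfl := Option.some.inj hs
  exact hh.choose_spec

theorem mem_cls {K Z : Finset I} {X : Finset Ω} {x : Ω → E} {o : Option (Vw I)} {h : Ω} :
    h ∈ cls a β c K Z X x o ↔ h ∈ X ∧ out a β c K h (x h) Z = o := by simp [cls]

theorem of_cls {K Z : Finset I} {X : Finset Ω} {x : Ω → E} {w : Vw I} {h : Ω}
    (hh : h ∈ cls a β c K Z X x (some w)) : h ∈ X ∧
      St (a h) (β h) (c h) K (x h) Z (nx a β c K Z x h) ∧ vw a β c K h (nx a β c K Z x h) = w := by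
  obtain ⟨h1, h2⟩ := mem_cls.1 hh
  rw [out, Option.map_eq_some_iff] at h2
  obtain ⟨y, h3, h4⟩ := h2
  have h5 : nx a β c K Z x h = y := by rw [nx, h3]; rfl
  rw [h5]
  exact ⟨h1, of_mv h3, h4⟩

theorem out_eq {K : Finset I} {h : Ω} {x y : E} {Z : Finset I}
    (hs : St (a h) (β h) (c h) K x Z y) : out a β c K h x Z = some (vw a β c K h y) := by
  rw [out, mv_eq hs]; rfl

theorem nx_eq {K Z : Finset I} {h : Ω} {x : Ω → E} {y : E}
    (hs : St (a h) (β h) (c h) K (x h) Z y) : nx a β c K Z x h = y := by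
  rw [nx, mv_eq hs]; rfl

theorem Node.next {K Z : Finset I} {X : Finset Ω} {x : Ω → E} {w : Vw I} :
    Node a β c K (cls a β c K Z X x (some w)) (nx a β c K Z x) w := by
  intro h hh
  obtain ⟨_, h2, h3⟩ := of_cls hh
  exact ⟨h2.2.1, h3⟩

end Pool.Agent.K4H92.NO
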