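import Pool.Agent.K4H92.NO.Spec2
set_option autoImplicit false

/-!
# From one round to the end
-/

namespace Pool.Agent.K4H92.NO

open Finset Pool.Agent.K4H92.LP

section General

variable {E : Type*} [AddCommGroup E] [Module ℝ E] {I : Type*} [Fintype I] [DecidableEq I]
  {Ω : Type*} [DecidableEq Ω]
  {a : Ω → I → E →ₗ[ℝ] ℝ} {β : Ω → I → ℝ} {c : Ω → E →ₗ[ℝ] ℝ}

theorem Sol.mono {K : Finset I} {N : ℕ} {X : Finset Ω} {x : Ω → E} {w : Vw I}
    (h : Sol a β c K N X x w) : ∀ {N' : ℕ}, N ≤ N' → Sol a β c K N' X x w := by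
  induction h with
  | opt N X x w h => exact fun _ => Sol.opt _ _ _ _ h
  | move N X x w Z hZ h ih =>
    intro N' hN
    obtain ⟨N'', rfl⟩ : ∃ N'', N' = N'' + 1 := ⟨N' - 1, by omega⟩
    exact Sol.move _ _ _ _ Z hZ fun w' hw' => ih w' hw' (by omega)

/-- the classes of two outcomes are disjoint -/
theorem cls_sub {K Z : Finset I} {Y X : Finset Ω} {x : Ω → E} {o o' : Option (Vw I)} (hX : X ⊆ Y)
    (ho : o ≠ o') : cls a β c K Z X x o ⊆ Y \ cls a β c K Z X x o' := by
  intro h hh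
  obtain ⟨h1, h2⟩ := mem_cls.1 hh
  refine mem_sdiff.2 ⟨hX h1, fun h3 => ho ?_⟩
  rw [← h2, (mem_cls.1 h3).2]

theorem cls_sub_self {K Z : Finset I} {X : Finset Ω} {x : Ω → E} {o : Option (Vw I)} :
    cls a β c K Z X x o ⊆ X := fun _ hh => (mem_cls.1 hh).1

/-- one round -/
theorem sol_of_round {K : Finset I} {Y : Finset Ω} {η lam : ℝ} {M : ℕ} (hη : 0 ≤ η)
    (hη2 : η ≤ (Y.card : ℝ) / 2)
    (hM : ∀ (X : Finset Ω) (x : Ω → E) (w : Vw I), X ⊆ Y → X.Nonempty → Node a β c K X x w →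
      (X.card : ℝ) ≤ Y.card - η → Sol a β c K M X x w)
    {X : Finset Ω} {x : Ω → E} {w : Vw I} {N : ℕ} (h : Win a β c Y K ∅ η lam X x w N) :
    0 ≤ lam → lam + (N + 1) * η ≤ (Y.card : ℝ) / 2 → X ⊆ Y → Sol a β c K (N + 1 + M) X x w := by
  induction h with
  | opt lam X x w N h =>
    intro _ _ _
    refine Sol.opt _ _ _ _ ?_
    exact Set.eq_empty_of_forall_notMem fun Z hZ => h Z hZ (empty_subset _)
  | unb lam X x w N Z hZ hS h =>
    intro hl hb hXY
    refine (Sol.move M X x w Z hZ fun w' hw' => ?_).mono (by omega)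
    refine hM _ _ _ (cls_sub_self.trans hXY) hw' Node.next ?_
    have h1 : ((cls a β c K Z X x (some w')).card : ℝ) ≤
        ((Y \ cls a β c K Z X x none).card : ℝ) := by
      exact_mod_cast card_le_card (cls_sub hXY (by simp))
    have h2 : (0 : ℝ) ≤ N * η := by positivity
    linarith
  | info lam X x w N Z hZ hS h =>
    intro hl hb hXY
    refine (Sol.move M X x w Z hZ fun w' hw' => ?_).mono (by omega)
    refine hM _ _ _ (cls_sub_self.trans hXY) hw' Node.next ?_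
    have h1 := h (some w')
    rw [card_sdiff_of_subset (cls_sub_self.trans hXY),
      Nat.cast_sub (card_le_card (cls_sub_self.trans hXY))] at h1
    linarith
  | step lam X x w N Z w1 hZ hS hc h ih =>
    intro hl hb hXY
    have e : N + 1 + 1 + M = (N + 1 + M) + 1 := by ring
    rw [e]
    push_cast at hb
    refine Sol.move _ X x w Z hZ fun w' hw' => ?_
    by_cases hw : w' = w1
    · subst hw
      exact ih (by linarith) (by linarith) (cls_sub_self.trans hXY)
    · refine (hM _ _ _ (cls_sub_self.trans hXY) hw' Node.next ?_).mono (by omega)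
      have h1 : ((cls a β c K Z X x (some w')).card : ℝ) ≤
          ((Y \ cls a β c K Z X x (some w1)).card : ℝ) := by
        exact_mod_cast card_le_card (cls_sub hXY (by simpa using hw))
      have h2 : (0 : ℝ) ≤ N * η := by positivity
      linarith

/-- all rounds -/
theorem sol_of_rounds {K : Finset I} {R : Finset Ω} {L Q : ℕ} (hQ : 2 * (L + 1) ≤ Q)
    (hwin : ∀ (X : Finset Ω) (x : Ω → E) (w : Vw I), X ⊆ R → X.Nonempty → Node a β c K X x w →
      Win a β c X K ∅ ((X.card : ℝ) / Q) 0 X x w L) (t : ℕ) :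
    ∀ (X : Finset Ω) (x : Ω → E) (w : Vw I), X ⊆ R → X.Nonempty → Node a β c K X x w →
      (X.card : ℝ) * (1 - 1 / Q) ^ t < 1 → Sol a β c K ((L + 1) * t) X x w := by
  have hQ0 : (2 : ℝ) * (L + 1) ≤ Q := by exact_mod_cast hQ
  have hQ1 : (0 : ℝ) < Q := by
    have : (0 : ℝ) ≤ L := Nat.cast_nonneg _
    linarith
  have hQ2 : (1 : ℝ) / Q ≤ 1 / 2 := by
    apply one_div_le_one_div_of_le (by norm_num)
    have : (0 : ℝ) ≤ L := Nat.cast_nonneg _
    linarith
  induction t with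
  | zero =>
    intro X x w _ hX _ h
    rw [pow_zero, mul_one] at h
    have : 1 ≤ X.card := card_pos.2 hX
    have : (1 : ℝ) ≤ X.card := by exact_mod_cast this
    linarith
  | succ t ih =>
    intro X x w hXR hX hnode h
    have hX0 : (0 : ℝ) ≤ X.card := Nat.cast_nonneg _
    have e : (L + 1) * (t + 1) = L + 1 + (L + 1) * t := by ring
    rw [e]
    refine sol_of_round (Y := X) (η := (X.card : ℝ) / Q) (lam := 0) (div_nonneg hX0 hQ1.le) ?_ ?_
      (hwin X x w hXR hX hnode) le_rfl ?_ subset_rfl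
    · rw [div_eq_mul_one_div]
      have := mul_le_mul_of_nonneg_left hQ2 hX0
      linarith
    · intro X' x' w' hX' hne hnode' hcard
      refine ih X' x' w' (hX'.trans hXR) hne hnode' ?_
      have h1 : (X'.card : ℝ) ≤ X.card * (1 - 1 / Q) := by
        rw [mul_sub, mul_one, mul_one_div]; exact hcard
      have h2 : (0 : ℝ) ≤ (1 - 1 / (Q : ℝ)) ^ t := pow_nonneg (by linarith) _
      calc (X'.card : ℝ) * (1 - 1 / Q) ^ t ≤ X.card * (1 - 1 / Q) * (1 - 1 / Q) ^ t :=
            mul_le_mul_of_nonneg_right h1 h2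
        _ = X.card * (1 - 1 / Q) ^ (t + 1) := by ring
        _ < 1 := h
    · rw [zero_add, div_eq_mul_inv, ← mul_assoc, mul_comm ((L : ℝ) + 1), mul_assoc]
      rw [div_eq_mul_inv]
      refine mul_le_mul_of_nonneg_left ?_ hX0
      rw [← div_eq_mul_inv, div_le_iff₀ hQ1]
      linarith

end General

theorem pow_bound {P Q : ℕ} (hP : 1 ≤ P) (hQ : 2 ≤ Q) {k : ℝ} (hk0 : 0 ≤ k) (hk : k ≤ 2 ^ P) :
    k * (1 - 1 / (Q : ℝ)) ^ (Q * P) < 1 := by
  have hQ1 : (1 : ℝ) ≤ Q := by exact_mod_cast (show 1 ≤ Q by omega)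
  have h1 : (1 - 1 / (Q : ℝ)) ^ Q ≤ Real.exp (-1) := Real.one_sub_div_pow_le_exp_neg hQ1
  have h2 : Real.exp (-1) < 1 / 2 := by
    rw [Real.exp_neg, one_div]
    refine inv_strictAnti₀ (by norm_num) ?_
    have := Real.add_one_lt_exp (x := 1) one_ne_zero
    linarith
  have h0 : (0 : ℝ) ≤ 1 - 1 / Q := by
    rw [sub_nonneg, div_le_one (by linarith)]; exact hQ1
  have h3 : (1 - 1 / (Q : ℝ)) ^ Q < 1 / 2 := h1.trans_lt h2
  have h4 : (1 - 1 / (Q : ℝ)) ^ (Q * P) < (1 / 2) ^ P := by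
    rw [pow_mul]
    exact pow_lt_pow_left₀ h3 (pow_nonneg h0 _) (by omega)
  calc k * (1 - 1 / (Q : ℝ)) ^ (Q * P) ≤ 2 ^ P * (1 - 1 / (Q : ℝ)) ^ (Q * P) :=
        mul_le_mul_of_nonneg_right hk (pow_nonneg h0 _)
    _ < 2 ^ P * (1 / 2) ^ P := mul_lt_mul_of_pos_left h4 (by positivity)
    _ = 1 := by rw [← mul_pow]; norm_num

theorem sol_of_win (m n : ℕ) : SolOfWin m n := by
  intro L P Q R hQ hP hR hwin X x w hXR hX hnode
  refine sol_of_rounds hQ hwin (Q * P) X x w hXR hX hnode ?_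
  refine pow_bound hP (by omega) (Nat.cast_nonneg _) ?_
  have : X.card ≤ 2 ^ P := (card_le_card hXR).trans hR
  exact_mod_cast this

end Pool.Agent.K4H92.NO
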