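import Pool.Agent.K4H92.NO.Sg
set_option autoImplicit false

/-!
# The sign vector determines the combinatorial type
-/

namespace Pool.Agent.K4H92.NO

open Finset Pool.Agent.K4H92.LP

variable {m n : ℕ}

/-- the value of a row at a point -/
def dp (z : Data m n) (i : Option (Ix m n)) (x : Fin n → ℝ) : ℝ := ∑ j, row z i j * x j

theorem rows_eq (z : Data m n) (i : Ix m n) (x : Fin n → ℝ) :
    rows z.1 i x = dp z (some i) x := by
  rcases i with i | j
  · rw [rows_inl]; rfl
  · rw [rows_inr]
    simp only [dp, row, ite_mul, neg_mul, one_mul, zero_mul]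
    rw [sum_ite_eq' univ j fun l => -x l]
    simp

theorem lf_eq (z : Data m n) (x : Fin n → ℝ) : lf z.2.2 x = dp z none x := by
  rw [lf_apply]; rfl

/-- Cramer's rule -/
theorem cramer_dp (z : Data m n) (r : Fin n → Option (Ix m n)) (i : Option (Ix m n))
    (x : Fin n → ℝ) :
    D z r * dp z i x = ∑ k, D z (Function.update r k i) * dp z (r k) x := by
  have h1 : ∀ j, D z r * row z i j = ∑ k, D z (Function.update r k i) * row z (r k) j := by
    intro j
    have h := congrFun (Matrix.mulVec_cramer (Matrix.of fun k => row z (r k)).transpose (row z i)) j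
    rw [Matrix.det_transpose, Pi.smul_apply, smul_eq_mul] at h
    rw [D, ← h, Matrix.mulVec, dotProduct]
    refine sum_congr rfl fun k _ => ?_
    rw [Matrix.cramer_transpose_apply, Matrix.transpose_apply, Matrix.of_apply, mul_comm]
    congr 1
    rw [D]
    congr 1
    ext k' l
    rcases eq_or_ne k' k with rfl | hk
    · simp
    · simp [hk]
  calc D z r * dp z i x = ∑ j, (D z r * row z i j) * x j := by
        rw [dp, mul_sum]
        exact sum_congr rfl fun j _ => by ring
    _ = ∑ j, ∑ k, D z (Function.update r k i) * row z (r k) j * x j := by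
        refine sum_congr rfl fun j _ => ?_
        rw [h1, sum_mul]
    _ = _ := by
        rw [sum_comm]
        refine sum_congr rfl fun k _ => ?_
        rw [dp, mul_sum]
        exact sum_congr rfl fun j _ => by ring

theorem dp_zero_of {z : Data m n} {r : Fin n → Option (Ix m n)} (h : D z r ≠ 0) {x : Fin n → ℝ}
    (hx : ∀ k, dp z (r k) x = 0) : x = 0 :=
  Matrix.eq_zero_of_mulVec_eq_zero h (funext fun k => hx k)

theorem exists_dp {z : Data m n} {r : Fin n → Option (Ix m n)} (h : D z r ≠ 0) (w : Fin n → ℝ) :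
    ∃ x, ∀ k, dp z (r k) x = w k := by
  refine ⟨(Matrix.of fun k => row z (r k))⁻¹.mulVec w, fun k => ?_⟩
  have h1 : (Matrix.of fun k => row z (r k)).mulVec
      ((Matrix.of fun k => row z (r k))⁻¹.mulVec w) = w := by
    rw [Matrix.mulVec_mulVec, Matrix.mul_nonsing_inv _ (isUnit_iff_ne_zero.2 h), Matrix.one_mulVec]
  exact congrFun h1 k

theorem D_eq_zero {z : Data m n} {r : Fin n → Option (Ix m n)} {k l : Fin n} (hkl : k ≠ l)
    (h : r k = r l) : D z r = 0 :=
  Matrix.det_zero_of_row_eq hkl (by ext j; simp [h])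

theorem exists_basis {z : Data m n} {T : Finset (Ix m n)} (hT : Spans (rows z.1) T) :
    ∃ r : Fin n → Ix m n, (∀ k, r k ∈ T) ∧ D z (fun k => some (r k)) ≠ 0 := by
  classical
  set v : T → (Fin n → ℝ) := fun i => row z (some i.1) with hv
  have hspan : Submodule.span ℝ (Set.range v) = ⊤ := by
    by_contra hcon
    obtain ⟨f, hf0, hf⟩ := Submodule.exists_le_ker_of_lt_top _ (lt_top_iff_ne_top.2 hcon)
    apply hf0
    have hfx : ∀ x, f x = ∑ j, x j * f (Pi.single j 1) := by
      intro x
      conv_lhs => rw [pi_eq_sum_univ' x]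
      rw [map_sum]
      exact sum_congr rfl fun j _ => by rw [map_smul, smul_eq_mul]
    have hg : (fun j => f (Pi.single j 1)) = 0 := by
      apply hT
      intro i hi
      rw [rows_eq]
      have h1 : v ⟨i, hi⟩ ∈ LinearMap.ker f := hf (Submodule.subset_span ⟨_, rfl⟩)
      rw [LinearMap.mem_ker, hfx] at h1
      exact h1
    refine LinearMap.ext fun x => ?_
    rw [hfx, LinearMap.zero_apply]
    exact sum_eq_zero fun j _ => by rw [show f (Pi.single j 1) = 0 from congrFun hg j, mul_zero]
  obtain ⟨κ, a, ha, hsp, hli⟩ := exists_linearIndependent' ℝ v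
  rw [hspan] at hsp
  have : Finite κ := Finite.of_injective a ha
  let _ : Fintype κ := Fintype.ofFinite κ
  have hcard : Fintype.card κ = n := by
    have := Module.finrank_eq_card_basis (Module.Basis.mk hli hsp.ge)
    rw [Module.finrank_fin_fun] at this
    exact this.symm
  obtain ⟨e⟩ : Nonempty (Fin n ≃ κ) := ⟨(Fintype.equivFinOfCardEq hcard).symm⟩
  refine ⟨fun k => (a (e k)).1, fun k => (a (e k)).2, ?_⟩
  have h2 : LinearIndependent ℝ (Matrix.of fun k => row z (some (a (e k)).1)).row :=
    hli.comp e e.injective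
  rw [Matrix.linearIndependent_rows_iff_isUnit, Matrix.isUnit_iff_isUnit_det] at h2
  exact h2.ne_zero

theorem spans_of {z : Data m n} {T : Finset (Ix m n)} {r : Fin n → Ix m n} (hr : ∀ k, r k ∈ T)
    (h : D z (fun k => some (r k)) ≠ 0) : Spans (rows z.1) T := by
  intro g hg
  exact dp_zero_of h fun k => by rw [← rows_eq]; exact hg _ (hr k)

theorem q_eq {z : Data m n} {r : Fin n → Ix m n} {x : Fin n → ℝ}
    (hx : ∀ k, dp z (some (r k)) x = rhs z.2.1 (r k)) (i : Ix m n) :
    q z r i = D z (fun k => some (r k)) * (rhs z.2.1 i - dp z (some i) x) := by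
  rw [mul_sub, cramer_dp z (fun k => some (r k)) (some i) x, q]
  congr 1
  refine sum_congr rfl fun k _ => ?_
  rw [hx k, mul_comm]

theorem sign_D {z z' : Data m n} (h : sg z = sg z') (r : Fin n → Option (Ix m n)) :
    SignType.sign (D z r) = SignType.sign (D z' r) := congrFun h (Sum.inl r)

theorem sign_q {z z' : Data m n} (h : sg z = sg z') (r : Fin n → Ix m n) (i : Ix m n) :
    SignType.sign (q z r i) = SignType.sign (q z' r i) := congrFun h (Sum.inr (r, i))

theorem sign_cancel {a a' u u' : ℝ} (ha : a ≠ 0) (h : SignType.sign a = SignType.sign a')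
    (h2 : SignType.sign (a * u) = SignType.sign (a' * u')) :
    SignType.sign u = SignType.sign u' := by
  rw [sign_mul, sign_mul, ← h] at h2
  have : SignType.sign a * (SignType.sign a * SignType.sign u) =
      SignType.sign a * (SignType.sign a * SignType.sign u') := by rw [h2]
  rcases lt_or_gt_of_ne ha with h0 | h0
  · rw [sign_neg h0] at this
    simpa using this
  · rw [sign_pos h0] at this
    simpa using this

theorem sign_ne {z z' : Data m n} (h : sg z = sg z') {r : Fin n → Option (Ix m n)}
    (h0 : D z r ≠ 0) : D z' r ≠ 0 := by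
  have := sign_D h r
  intro h1
  rw [h1, sign_zero, sign_eq_zero_iff] at this
  exact h0 this

theorem mono_of_sign {u u' : ℝ} (h : SignType.sign u = SignType.sign u') (hu : 0 ≤ u) : 0 ≤ u' := by
  rw [← sign_nonneg_iff] at hu ⊢
  rwa [← h]

theorem VT_of_sg {z z' : Data m n} (h : sg z = sg z') {T : Finset (Ix m n)} (hT : VT z T) :
    VT z' T := by
  classical
  obtain ⟨x, ⟨hx1, hx2⟩, rfl⟩ := hT
  obtain ⟨r, hr, hD⟩ := exists_basis hx2
  have hD' := sign_ne h hD
  obtain ⟨x', hx'⟩ := exists_dp hD' fun k => rhs z'.2.1 (r k)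
  have hx : ∀ k, dp z (some (r k)) x = rhs z.2.1 (r k) := fun k => by
    rw [← rows_eq]; exact mem_tight.1 (hr k)
  have key : ∀ i, SignType.sign (rhs z.2.1 i - dp z (some i) x) =
      SignType.sign (rhs z'.2.1 i - dp z' (some i) x') := by
    intro i
    refine sign_cancel hD (sign_D h _) ?_
    rw [← q_eq hx i, ← q_eq hx' i]
    exact sign_q h r i
  have ht : tight (rows z'.1) (rhs z'.2.1) x' = tight (rows z.1) (rhs z.2.1) x := by
    ext i
    rw [mem_tight, mem_tight, rows_eq, rows_eq]
    have := key i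
    constructor
    · intro h1
      rw [h1, sub_self, sign_zero, sign_eq_zero_iff] at this
      linarith
    · intro h1
      rw [h1, sub_self, sign_zero] at this
      have := sign_eq_zero_iff.1 this.symm
      linarith
  refine ⟨x', ⟨fun i => ?_, ?_⟩, ht⟩
  · rw [rows_eq]
    have h1 := hx1 i
    rw [rows_eq] at h1
    have := mono_of_sign (key i) (by linarith)
    linarith
  · rw [ht]
    exact spans_of hr hD'

theorem impr_of_sg {z z' : Data m n} (h : sg z = sg z') {T : Finset (Ix m n)} :
    impr z.1 z.2 T ⊆ impr z'.1 z'.2 T := by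
  classical
  rintro _ ⟨e, he, hc, rfl⟩
  obtain ⟨k, hkT, hke⟩ := he.exists_neg
  have hspan : Spans (rows z.1) (insert k (zer z.1 T e)) := by
    intro g hg
    obtain ⟨t, rfl⟩ := he.2.2 g fun i hi h0 =>
      hg i (mem_insert_of_mem (mem_filter.2 ⟨hi, h0⟩))
    have h1 := hg k (mem_insert_self _ _)
    rw [map_smul, smul_eq_mul] at h1
    rcases mul_eq_zero.1 h1 with h2 | h2
    · rw [h2, zero_smul]
    · exact absurd h2 hke.ne
  obtain ⟨r, hr, hD⟩ := exists_basis hspan
  have hD' := sign_ne h hD
  -- the position of `k`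
  obtain ⟨k0, hk0⟩ : ∃ k0, r k0 ∉ zer z.1 T e := by
    by_contra hcon
    push Not at hcon
    refine he.ne_zero (dp_zero_of hD fun l => ?_)
    rw [← rows_eq]
    exact (mem_filter.1 (hcon l)).2
  have hrk : r k0 = k := by
    rcases mem_insert.1 (hr k0) with h1 | h1
    · exact h1
    · exact absurd h1 hk0
  have hother : ∀ l, l ≠ k0 → r l ∈ zer z.1 T e := by
    intro l hl
    rcases mem_insert.1 (hr l) with h1 | h1
    · exact absurd (D_eq_zero (z := z) (r := fun k => some (r k)) hl (by simp [h1, hrk])) hD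
    · exact h1
  have e1 : ∀ i, D z (fun k => some (r k)) * dp z i e =
      D z (Function.update (fun k => some (r k)) k0 i) * dp z (some k) e := by
    intro i
    rw [cramer_dp, sum_eq_single k0]
    · rw [hrk]
    · intro l _ hl
      have := (mem_filter.1 (hother l hl)).2
      rw [rows_eq] at this
      rw [this, mul_zero]
    · intro h1
      exact absurd (mem_univ _) h1
  obtain ⟨e', he'⟩ := exists_dp hD' fun l => if l = k0 then -1 else 0
  have hk' : dp z' (some k) e' = -1 := by
    have := he' k0
    rw [hrk, if_pos rfl] at this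
    exact this
  have e2 : ∀ i, D z' (fun k => some (r k)) * dp z' i e' =
      D z' (Function.update (fun k => some (r k)) k0 i) * dp z' (some k) e' := by
    intro i
    rw [cramer_dp, sum_eq_single k0]
    · rw [hrk]
    · intro l _ hl
      rw [he' l, if_neg hl, mul_zero]
    · intro h1
      exact absurd (mem_univ _) h1
  have hke2 : SignType.sign (dp z (some k) e) = SignType.sign (dp z' (some k) e') := by
    rw [hk', ← rows_eq, sign_neg hke, sign_neg (by norm_num : (-1 : ℝ) < 0)]
  have key : ∀ i, SignType.sign (dp z i e) = SignType.sign (dp z' i e') := by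
    intro i
    refine sign_cancel hD (sign_D h _) ?_
    rw [e1 i, e2 i, sign_mul, sign_mul, sign_D h, hke2]
  have hle : ∀ i ∈ T, dp z' (some i) e' ≤ 0 := by
    intro i hi
    have h1 := he.1 i hi
    rw [rows_eq] at h1
    rw [← sign_nonpos_iff] at h1 ⊢
    rwa [← key]
  have hlin : 0 < lin (rows z'.1) T e' := by
    rw [lin_apply]
    have h1 : ∑ i ∈ T, rows z'.1 i e' ≤ rows z'.1 k e' := by
      rw [← add_sum_erase T _ hkT]
      have : ∑ i ∈ T.erase k, rows z'.1 i e' ≤ 0 :=
        sum_nonpos fun i hi => by rw [rows_eq]; exact hle i (mem_of_mem_erase hi)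
      linarith
    rw [rows_eq z' k, hk'] at h1
    linarith
  set s := (lin (rows z'.1) T e')⁻¹ with hs
  have hs0 : 0 < s := inv_pos.2 hlin
  have hse : ∀ i, rows z'.1 i (s • e') = s * dp z' (some i) e' := fun i => by
    rw [map_smul, smul_eq_mul, rows_eq]
  refine ⟨s • e', ⟨fun i hi => ?_, ?_, fun g hg => ?_⟩, ?_, ?_⟩
  · rw [hse]
    exact mul_nonpos_of_nonneg_of_nonpos hs0.le (hle i hi)
  · rw [map_smul, smul_eq_mul, hs, inv_mul_cancel₀ hlin.ne']
  · have hg0 : g + (dp z' (some k) g) • e' = 0 := by
      refine dp_zero_of hD' fun l => ?_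
      have hadd : dp z' (some (r l)) (g + (dp z' (some k) g) • e') =
          dp z' (some (r l)) g + dp z' (some k) g * dp z' (some (r l)) e' := by
        rw [← rows_eq, map_add, map_smul, smul_eq_mul, rows_eq, rows_eq]
      rw [hadd, he' l]
      by_cases hl : l = k0
      · rw [if_pos hl, hl, hrk]; ring
      · rw [if_neg hl, mul_zero, add_zero, ← rows_eq]
        refine hg _ (mem_filter.1 (hother l hl)).1 ?_
        rw [hse, he' l, if_neg hl, mul_zero]
    refine ⟨-(dp z' (some k) g) * lin (rows z'.1) T e', ?_⟩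
    rw [smul_smul, mul_assoc, hs, mul_inv_cancel₀ hlin.ne', mul_one, neg_smul]
    exact eq_neg_of_add_eq_zero_left hg0
  · rw [map_smul, smul_eq_mul, lf_eq]
    refine mul_pos hs0 ?_
    rw [lf_eq] at hc
    rw [← sign_eq_one_iff] at hc ⊢
    rw [← key, hc]
  · ext i
    simp only [zer, mem_filter]
    refine and_congr_right fun _ => ?_
    rw [hse, rows_eq, mul_eq_zero, or_iff_right hs0.ne', ← sign_eq_zero_iff, key,
      sign_eq_zero_iff]

theorem sameType_of_sg (z z' : Data m n) (h : sg z = sg z') : SameType z z' :=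
  ⟨fun _ => ⟨VT_of_sg h, VT_of_sg h.symm⟩, fun _ _ =>
    Set.Subset.antisymm (impr_of_sg h) (impr_of_sg h.symm)⟩

end Pool.Agent.K4H92.NO
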