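import Pool.Agent.K4H92.NO.Count
import Pool.Agent.K4H92.NO.SgType
set_option autoImplicit false

/-!
# Finitely many combinatorial types
-/

namespace Pool.Agent.K4H92.NO

theorem exists_types (m n : ℕ) : ExistsTypes m n := existsTypes_of_sg sameType_of_sg

end Pool.Agent.K4H92.NO
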