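import Pool.Agent.K4H92.NO.Majority
import Pool.Agent.K4H92.NO.Types
import Pool.Agent.K4H92.NO.Game
set_option autoImplicit false

/-!
# Strategies for all families of linear programs
-/

namespace Pool.Agent.K4H92.NO

open Finset Pool.Agent.K4H92.LP

/-- the number of moves between two exclusions -/
def LL (m n : ℕ) : ℕ := kk (m + n) (Nat.log 2 (m + n) + 1)

/-- the inverse of the proportion which is excluded -/
def QQ (m n : ℕ) : ℕ := 2 * (LL m n + 1) * (4 * (m + n + 1)) ^ (Nat.log 2 (m + n) + 2)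

theorem two_le_QQ (m n : ℕ) : 2 * (LL m n + 1) ≤ QQ m n := by
  rw [QQ]
  exact Nat.le_mul_of_pos_right _ (pow_pos (by omega) _)

open Classical in
theorem win_all (m n : ℕ) (X : Finset (Data m n)) (x : Data m n → Fin n → ℝ)
    (w : Vw (Ix m n)) (hX : X.Nonempty) (hn : Node (fa m n) (fb m n) (fc m n) univ X x w) :
    Win (fa m n) (fb m n) (fc m n) X univ ∅ ((X.card : ℝ) / QQ m n) 0 X x w (LL m n) := by
  have hXc : (0 : ℝ) < X.card := by exact_mod_cast hX.card_pos
  have hQ : (0 : ℝ) < QQ m n := by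
    have := two_le_QQ m n
    exact_mod_cast (by omega : 0 < QQ m n)
  refine majority (by positivity) (M := m + n + 1) (by simp) (by omega) (m + n)
    (Nat.log 2 (m + n) + 1) X univ ∅ X x w 0 ?_ (empty_subset _) hn (empty_subset _)
    (Subset.refl _) (by simp) ?_ ?_
  · rw [sdiff_empty, card_univ, Fintype.card_sum, Fintype.card_fin, Fintype.card_fin]
  · intro h _
    refine lt_of_le_of_lt (card_le_univ _) ?_
    rw [Fintype.card_sum, Fintype.card_fin, Fintype.card_fin]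
    exact Nat.lt_pow_succ_log_self (by norm_num) _
  · have e1 : (QQ m n : ℝ) = 2 * (LL m n + 1) *
        (4 * ((m + n + 1 : ℕ) : ℝ)) ^ (Nat.log 2 (m + n) + 1 + 1) := by
      rw [QQ]
      push_cast
      ring
    have e2 : (0 + ((kk (m + n) (Nat.log 2 (m + n) + 1) : ℕ) + 1) * ((X.card : ℝ) / QQ m n)) *
        (4 * ((m + n + 1 : ℕ) : ℝ)) ^ (Nat.log 2 (m + n) + 1 + 1) = X.card / 2 := by
      have e3 : ((kk (m + n) (Nat.log 2 (m + n) + 1) : ℕ) : ℝ) = LL m n := rfl
      rw [e3, zero_add]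
      have h2 : (0 : ℝ) < (4 * ((m + n + 1 : ℕ) : ℝ)) ^ (Nat.log 2 (m + n) + 1 + 1) := by
        positivity
      have h3 : (0 : ℝ) < (LL m n : ℝ) + 1 := by positivity
      rw [e1]
      field_simp
    rw [e2]
    linarith

open Classical in
theorem sol_all (m n : ℕ) : ∃ R : Finset (Data m n), (∀ z, ∃ z' ∈ R, SameType z z') ∧
    ∀ (X : Finset (Data m n)) (x : Data m n → Fin n → ℝ) (w : Vw (Ix m n)), X ⊆ R →
      X.Nonempty → Node (fa m n) (fb m n) (fc m n) univ X x w →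
      Sol (fa m n) (fb m n) (fc m n) univ ((LL m n + 1) * (QQ m n * (m + n + 3) ^ 4)) X x w := by
  obtain ⟨R, hR, hT⟩ := exists_types m n
  refine ⟨R, hT, ?_⟩
  exact sol_of_win m n (LL m n) ((m + n + 3) ^ 4) (QQ m n) R (two_le_QQ m n)
    (Nat.one_le_pow _ _ (by omega)) hR fun X x w _ hX hn => win_all m n X x w hX hn

theorem bound_le (m n : ℕ) : (LL m n + 1) * (QQ m n * (m + n + 3) ^ 4) ≤
    (4 * (m + n + 1)) ^ (3 * Nat.log 2 (m + n) + 11) := by
  set M := m + n + 1 with hM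
  set l := Nat.log 2 (m + n) with hl
  have h1 : LL m n + 1 ≤ 2 ^ (l + 1) * (m + n + (l + 1)).choose (m + n) := kk_le _ _
  have h2 : 2 ^ l ≤ M := by
    rcases Nat.eq_zero_or_pos (m + n) with h0 | h0
    · rw [hl, h0]; simp [hM]
    · exact (Nat.pow_log_le_self 2 h0.ne').trans (Nat.le_succ _)
  have h3 : l ≤ m + n := Nat.log_le_self 2 (m + n)
  have h4 : (m + n + (l + 1)).choose (m + n) ≤ (2 * M) ^ (l + 1) := by
    rw [Nat.choose_symm_add]
    refine (Nat.choose_le_pow _ _).trans ?_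
    exact Nat.pow_le_pow_left (by omega) _
  have h5 : LL m n + 1 ≤ (2 * M) ^ (l + 2) := by
    refine h1.trans ?_
    calc 2 ^ (l + 1) * (m + n + (l + 1)).choose (m + n) ≤ (2 * M) * (2 * M) ^ (l + 1) := by
          apply Nat.mul_le_mul _ h4
          rw [pow_succ]
          omega
      _ = (2 * M) ^ (l + 2) := by ring
  have h6 : (m + n + 3) ^ 4 ≤ (4 * M) ^ 4 := Nat.pow_le_pow_left (by omega) _
  have h7 : (2 * M) ^ (l + 2) ≤ (4 * M) ^ (l + 2) := Nat.pow_le_pow_left (by omega) _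
  have h8 : LL m n + 1 ≤ (4 * M) ^ (l + 2) := h5.trans h7
  calc (LL m n + 1) * (QQ m n * (m + n + 3) ^ 4)
      = (LL m n + 1) * (2 * (LL m n + 1) * (4 * M) ^ (l + 2) * (m + n + 3) ^ 4) := by rw [QQ]
    _ ≤ (4 * M) ^ (l + 2) * ((4 * M) * (4 * M) ^ (l + 2) * (4 * M) ^ (l + 2) * (4 * M) ^ 4) := by
        apply Nat.mul_le_mul h8
        apply Nat.mul_le_mul _ h6
        apply Nat.mul_le_mul_right
        exact Nat.mul_le_mul (by omega) h8
    _ = (4 * M) ^ (3 * l + 11) := by ring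

end Pool.Agent.K4H92.NO
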