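import Pool.Agent.K4H92.NO.Reach
import Pool.Agent.K4H92.LP.KK.Main
set_option autoImplicit false

/-!
# Predictable improving paths for families of linear programs (after Kalai and Kleitman)
-/

namespace Pool.Agent.K4H92.NO

open Finset Pool.Agent.K4H92.LP

variable {E : Type*} [AddCommGroup E] [Module ℝ E] {I : Type*} [Fintype I] [DecidableEq I]
  {Ω : Type*} [DecidableEq Ω]
  {a : Ω → I → E →ₗ[ℝ] ℝ} {β : Ω → I → ℝ} {c : Ω → E →ₗ[ℝ] ℝ}

theorem kk_le_succ (p k : ℕ) : kk p k ≤ kk (p + 1) k := by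
  induction k with
  | zero => rw [kk_zero, kk_zero]
  | succ k ih =>
    rw [kk.eq_3]
    omega

/-- the base case: no row is met above -/
theorem majority_zero {Y : Finset Ω} {K S : Finset I} {η : ℝ} (hη : 0 ≤ η) {X : Finset Ω}
    {x : Ω → E} {w : Vw I} {lam0 : ℝ} {N : ℕ}
    (hl : ((Y \ X).card : ℝ) ≤ lam0)
    (hact : ∀ h ∈ X, (ak (a h) (β h) (c h) K S (x h)).card = 0) :
    Win a β c Y K S η lam0 X x w N := by
  by_cases h0 : ∀ Z ∈ w.2, ¬ S ⊆ Z
  · exact Win.opt _ _ _ _ _ h0
  · push Not at h0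
    obtain ⟨Z, hZ, hS⟩ := h0
    refine Win.unb _ _ _ _ _ Z hZ hS ?_
    have h1 : cls a β c K Z X x none = X := by
      ext g
      rw [mem_cls]
      refine ⟨fun h => h.1, fun hg => ⟨hg, ?_⟩⟩
      by_contra hne
      rw [out, Option.map_eq_none_iff] at hne
      obtain ⟨y, hy⟩ := Option.ne_none_iff_exists'.1 hne
      have h2 := (of_mv hy).ak_ne hS
      have h3 := hact g hg
      rw [card_eq_zero] at h3
      rw [h3] at h2
      exact not_nonempty_empty h2
    rw [h1]
    linarith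

/-- few rows are met by predictable moves: forget the others -/
theorem majority_few {Y : Finset Ω} {K S : Finset I} {η : ℝ} (hη : 0 ≤ η) {X : Finset Ω}
    {x : Ω → E} {w : Vw I} {lam0 : ℝ} {H L p k : ℕ} (hHL : H + 1 ≤ L)
    (hSK : S ⊆ K) (hn : Node a β c K X x w) (hS : S ⊆ w.1)
    (hl : ((Y \ X).card : ℝ) ≤ lam0) (hnw : ¬ Win a β c Y K S η lam0 X x w L)
    (hcard : (K \ S).card ≤ p) (hmaj : 2 * (lam0 + (L + 1) * η) < Y.card)
    (met : Finset I) (hmet : ∀ i, i ∈ met ↔ i ∈ K \ S ∧ ∃ j X1 x1 w1, 1 ≤ j ∧ j ≤ H + 1 ∧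
      Reach a β c Y K S η lam0 X x w j X1 x1 w1 ∧ i ∈ w1.1) (hfew : met.card < 2 ^ k)
    (ih : ∀ (K' : Finset I), (K' \ S).card ≤ p → S ⊆ K' → Node a β c K' X x w →
      (∀ h ∈ X, (ak (a h) (β h) (c h) K' S (x h)).card < 2 ^ k) →
      Win a β c Y K' S η lam0 X x w H) : False := by
  have hlam0 : 0 ≤ lam0 := le_trans (Nat.cast_nonneg _) hl
  have hne : ∀ j X1 x1 w1, j ≤ L + 1 → Reach a β c Y K S η lam0 X x w j X1 x1 w1 →
      X1.Nonempty := by
    intro j X1 x1 w1 hj hr
    by_contra hcon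
    rw [not_nonempty_iff_eq_empty] at hcon
    have h1 := hr.card hl
    rw [hcon, sdiff_empty] at h1
    have h2 : (j : ℝ) ≤ L + 1 := by exact_mod_cast hj
    have h3 := mul_le_mul_of_nonneg_right h2 hη
    have h4 : 0 ≤ lam0 + (L + 1) * η := by positivity
    linarith
  have hXne : X.Nonempty := hne 0 X x w (by omega) Reach.refl
  have hwK : w.1 ⊆ K := hn.sub_rows hXne
  set K' := S ∪ w.1 ∪ met with hK'
  have hK'K : K' ⊆ K := by
    rw [hK']
    refine union_subset (union_subset hSK hwK) fun i hi => ?_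
    exact (mem_sdiff.1 ((hmet i).1 hi).1).1
  have hSK' : S ⊆ K' := fun i hi => mem_union_left _ (mem_union_left _ hi)
  have hwK' : w.1 ⊆ K' := fun i hi => mem_union_left _ (mem_union_right _ hi)
  have hmK' : met ⊆ K' := fun i hi => mem_union_right _ hi
  have ht : ∀ h ∈ X, tk (a h) (β h) K (x h) ⊆ K' := fun h hh => by rw [hn.fst hh]; exact hwK'
  have hn' : Node a β c K' X x w := by
    intro h hh
    refine ⟨(hn h hh).1.sub hK'K (ht h hh), ?_⟩
    rw [← (hn h hh).2, vw, vw, tk_sub hK'K (ht h hh), im_sub hK'K (ht h hh)]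
  have hact : ∀ h ∈ X, ak (a h) (β h) (c h) K' S (x h) ⊆ met := by
    intro h hh i hi
    obtain ⟨hiK', hiS, y, hy, hyS, hyi, hcy⟩ := mem_ak.1 hi
    rcases mem_union.1 hiK' with h1 | h1
    · rcases mem_union.1 h1 with h2 | h2
      · exact absurd h2 hiS
      · -- a tight row of the vertex
        by_contra him
        have h3 : ∀ Z ∈ im (a h) (β h) (c h) K' (x h), ¬ insert i S ⊆ Z := by
          intro Z hZ hiZ
          rw [hn'.snd hh] at hZ
          have hSZ : S ⊆ Z := (subset_insert i S).trans hiZ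
          obtain ⟨w1, hr⟩ := (Reach.refl (a := a) (β := β) (c := c) (Y := Y) (K := K) (S := S)
            (η := η) (lam0 := lam0) (X0 := X) (x0 := x) (w0 := w)).exists_next hnw (by omega)
            hZ hSZ
          obtain ⟨g, hg⟩ := hne _ _ _ _ (by omega) hr
          obtain ⟨g1, g2, g3⟩ := of_cls hg
          have h4 := g2.sub
          have h5 := congrArg Prod.fst g3
          rw [vw] at h5
          simp only at h5
          rw [h5] at h4
          apply him
          rw [hmet]
          exact ⟨mem_sdiff.2 ⟨hwK h2, hiS⟩, 1, _, _, w1, le_rfl, by omega, hr,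
            h4 (hiZ (mem_insert_self i S))⟩
        have h6 : insert i S ⊆ tk (a h) (β h) K' (x h) := by
          rw [hn'.fst hh]
          exact insert_subset h2 hS
        have h7 := face_le (hn' h hh).1 h6 h3 hy (fun j hj => by
          rcases mem_insert.1 hj with rfl | hj
          · exact hyi
          · exact hyS j hj)
        linarith
    · exact h1
  have hW := ih K' ((card_le_card (sdiff_subset_sdiff hK'K Subset.rfl)).trans hcard) hSK' hn'
    (fun h hh => lt_of_le_of_lt (card_le_card (hact h hh)) hfew)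
  have hrK' : ∀ j1 X1 x1 w1, Reach a β c Y K S η lam0 X x w j1 X1 x1 w1 →
      j1 ≤ 0 + H + 1 → w1.1 ⊆ K' := by
    intro j1 X1 x1 w1 hr hj i hi
    rcases Nat.eq_zero_or_pos j1 with rfl | hpos
    · obtain ⟨_, _, rfl⟩ := hr.zero
      exact hwK' hi
    · by_cases hiS : i ∈ S
      · exact hSK' hiS
      · apply hmK'
        rw [hmet]
        exact ⟨mem_sdiff.2 ⟨(hr.node hn).sub_rows (hne _ _ _ _ (by omega) hr) hi, hiS⟩, j1, X1, x1,
          w1, hpos, by omega, hr, hi⟩
  obtain ⟨j1, X1, x1, w1, r1, r2, _, r4, _⟩ := transfer hη (Subset.refl Y) hK'K (Subset.refl S) hn hl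
    hnw hW 0 X x (by simp) Reach.refl (fun g hg _ => ⟨hg, rfl⟩) (by omega) hrK' (by
      have h2 : (H : ℝ) + 1 ≤ L := by exact_mod_cast hHL
      have h3 := mul_le_mul_of_nonneg_right h2 hη
      have h4 : 0 ≤ η := hη
      push_cast
      nlinarith) hS
  exact r1.notWin hnw (by omega) (Win.opt _ _ _ _ _ r4)

/-- many rows are met by predictable moves: go to the best vertex of one of their faces, the one which
is best for many members -/
theorem majority_many {Y : Finset Ω} {K S : Finset I} {η : ℝ} (hη : 0 ≤ η) {X : Finset Ω}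
    {x : Ω → E} {w : Vw I} {lam0 : ℝ} {H T L p k M : ℕ} (hL : L = 2 * H + T + 1)
    (hM : Fintype.card I ≤ M) (hM1 : 1 ≤ M)
    (hn : Node a β c K X x w) (hS : S ⊆ w.1) (hXY : X ⊆ Y)
    (hl : ((Y \ X).card : ℝ) ≤ lam0) (hnw : ¬ Win a β c Y K S η lam0 X x w L)
    (hcard : (K \ S).card ≤ p + 1)
    (hbud : (lam0 + (L + 1) * η) * (4 * M) ^ (k + 2) < Y.card)
    (hact : ∀ h ∈ X, (ak (a h) (β h) (c h) K S (x h)).card < 2 ^ (k + 1))
    (met : Finset I) (hmet : ∀ i, i ∈ met ↔ i ∈ K \ S ∧ ∃ j X1 x1 w1, 1 ≤ j ∧ j ≤ H + 1 ∧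
      Reach a β c Y K S η lam0 X x w j X1 x1 w1 ∧ i ∈ w1.1) (hmany : 2 ^ k ≤ met.card)
    (ihf : ∀ (S' : Finset I) (X' : Finset Ω) (x' : Ω → E) (w' : Vw I) (lam' : ℝ),
      (K \ S').card ≤ p → Node a β c K X' x' w' → S' ⊆ w'.1 → X' ⊆ Y →
      ((Y \ X').card : ℝ) ≤ lam' →
      (∀ h ∈ X', (ak (a h) (β h) (c h) K S' (x' h)).card < 2 ^ (k + 1)) →
      (lam' + (T + 1) * η) * (4 * M) ^ (k + 2) < Y.card →
      Win a β c Y K S' η lam' X' x' w' T)
    (ihk : ∀ (Y' : Finset Ω) (x' : Ω → E) (w' : Vw I) (lam' : ℝ), 0 ≤ lam' →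
      Node a β c K Y' x' w' → S ⊆ w'.1 →
      (∀ h ∈ Y', (ak (a h) (β h) (c h) K S (x' h)).card < 2 ^ k) →
      (lam' + (H + 1) * η) * (4 * M) ^ (k + 1) < Y'.card →
      Win a β c Y' K S η lam' Y' x' w' H) : False := by
  classical
  have hlam0 : 0 ≤ lam0 := le_trans (Nat.cast_nonneg _) hl
  have hM1' : (1 : ℝ) ≤ M := by exact_mod_cast hM1
  set A : ℝ := lam0 + (L + 1) * η with hA
  have hA0 : 0 ≤ A := by positivity
  have hp1 : (4 : ℝ) ≤ (4 * M) ^ (k + 1) := by
    have h1 : (4 : ℝ) * M ≤ (4 * M) ^ (k + 1) := by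
      have h2 : (1 : ℝ) ≤ 4 * M := by linarith
      calc (4 : ℝ) * M = (4 * M) ^ 1 := (pow_one _).symm
        _ ≤ (4 * M) ^ (k + 1) := pow_le_pow_right₀ h2 (by omega)
    linarith
  set B : ℝ := A * (4 * M) ^ (k + 1) with hB
  have hB4 : 4 * A ≤ B := by
    rw [hB]
    have := mul_le_mul_of_nonneg_left hp1 hA0
    linarith
  have hB0 : 0 ≤ B := by positivity
  have hbud' : 4 * M * B < Y.card := by
    have e : A * (4 * M) ^ (k + 2) = 4 * M * B := by rw [hB]; ring
    rw [← e]
    exact hbud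
  have hBY : 4 * B ≤ 4 * M * B := by
    have := mul_le_mul_of_nonneg_right hM1' hB0
    linarith
  have hlA : ∀ j : ℕ, j ≤ L + 1 → lam0 + j * η ≤ A := by
    intro j hj
    have h2 : (j : ℝ) ≤ L + 1 := by exact_mod_cast hj
    have h3 := mul_le_mul_of_nonneg_right h2 hη
    linarith
  have hne : ∀ j X1 x1 w1, j ≤ L + 1 → Reach a β c Y K S η lam0 X x w j X1 x1 w1 →
      X1.Nonempty := by
    intro j X1 x1 w1 hj hr
    by_contra hcon
    rw [not_nonempty_iff_eq_empty] at hcon
    have h1 := hr.card hl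
    rw [hcon, sdiff_empty] at h1
    have h2 := hlA j hj
    linarith
  -- the best vertex of the face of each row in `met`
  have hface : ∀ i ∈ met, ∃ (j : ℕ) (U : Finset Ω) (u : Ω → E) (v : Vw I), j ≤ H + 1 + T ∧
      Reach a β c Y K S η lam0 X x w j U u v ∧ (∀ Z ∈ v.2, ¬ insert i S ⊆ Z) ∧
      insert i S ⊆ v.1 ∧ ∀ h ∈ U, i ∈ ak (a h) (β h) (c h) K S (x h) := by
    intro i hi
    obtain ⟨hiKS, j1, X1, x1, w1, g1, g2, g3, g4⟩ := (hmet i).1 hi
    obtain ⟨hiK, hiS⟩ := mem_sdiff.1 hiKS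
    have hX1 := hne _ _ _ _ (by omega) g3
    have hS1 : S ⊆ w1.1 := g3.face hS hX1
    have hn1 := g3.node hn
    have hW := ihf (insert i S) X1 x1 w1 (lam0 + j1 * η) (by
        rw [sdiff_insert, card_erase_of_mem hiKS]
        omega) hn1 (insert_subset g4 hS1) (g3.sub.trans hXY) (g3.card hl) (by
        intro h hh
        refine lt_of_le_of_lt (card_le_card fun l hl => ?_) (hact h (g3.sub hh))
        obtain ⟨l1, l2, y, l3, l4, l5, l6⟩ := mem_ak.1 hl
        exact mem_ak.2 ⟨l1, fun l7 => l2 (mem_insert_of_mem l7), y, l3,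
          fun l' hl' => l4 l' (mem_insert_of_mem hl'), l5, (g3.le h hh).trans_lt l6⟩) (by
        have e1 : (j1 : ℝ) + T + 1 ≤ L + 1 := by
          have : j1 + T + 1 ≤ L + 1 := by omega
          exact_mod_cast this
        have e2 := mul_le_mul_of_nonneg_right e1 hη
        have e3 : lam0 + j1 * η + (T + 1) * η ≤ A := by
          rw [hA]
          linarith
        have e4 : (0 : ℝ) ≤ (4 * M) ^ (k + 2) := by positivity
        exact (mul_le_mul_of_nonneg_right e3 e4).trans_lt hbud)
    obtain ⟨j2, X2, x2, w2, r1, r2, r3, r4, r5⟩ := transfer hη (Subset.refl Y) (Subset.refl K)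
      (subset_insert i S) hn hl hnw hW j1 X1 x1 rfl g3 (fun g hg _ => ⟨hg, rfl⟩) (by omega)
      (fun j3 X3 x3 w3 hr3 hj3 => (hr3.node hn).sub_rows (hne _ _ _ _ (by omega) hr3)) (by
        have e1 := hlA (j1 + T + 1) (by omega)
        push_cast at e1
        linarith) (insert_subset g4 hS1)
    refine ⟨j2, X2, x2, w2, by omega, r1, r4, r5, fun h hh => ?_⟩
    have hh1 := r3 hh
    refine mem_ak.2 ⟨hiK, hiS, x1 h, (hn1 h hh1).1.1, fun l hl => ?_, ?_, g3.lt g1 h hh1⟩
    · have := hS1 hl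
      rw [← hn1.fst hh1] at this
      exact (mem_tk.1 this).2
    · rw [← hn1.fst hh1] at g4
      exact (mem_tk.1 g4).2
  choose! J U u v f1 f2 f3 f4 f5 using hface
  -- the members which agree on all these vertices
  set D : Finset Ω := Y.filter fun h => ∀ i ∈ met, h ∈ U i with hD
  have hMmet : (met.card : ℝ) ≤ M := by exact_mod_cast (card_le_univ met).trans hM
  have hYD : ((Y \ D).card : ℝ) ≤ M * A := by
    have h1 : Y \ D ⊆ met.biUnion fun i => Y \ U i := by
      intro h hh
      obtain ⟨h2, h3⟩ := mem_sdiff.1 hh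
      have h4 : ¬ ∀ i ∈ met, h ∈ U i := fun h5 => h3 (mem_filter.2 ⟨h2, h5⟩)
      push Not at h4
      obtain ⟨i, hi, hiU⟩ := h4
      exact mem_biUnion.2 ⟨i, hi, mem_sdiff.2 ⟨h2, hiU⟩⟩
    have h2 : ((Y \ D).card : ℝ) ≤ ∑ i ∈ met, ((Y \ U i).card : ℝ) := by
      exact_mod_cast (card_le_card h1).trans card_biUnion_le
    have h3 : ∑ i ∈ met, ((Y \ U i).card : ℝ) ≤ ∑ i ∈ met, A :=
      sum_le_sum fun i hi => ((f2 i hi).card hl).trans (hlA _ (by have := f1 i hi; omega))
    rw [sum_const, nsmul_eq_mul] at h3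
    have h4 := mul_le_mul_of_nonneg_right hMmet hA0
    linarith
  have hmetne : met.Nonempty := by
    rw [← card_pos]
    exact lt_of_lt_of_le (Nat.two_pow_pos k) hmany
  have hbest : ∀ h, ∃ i ∈ met, ∀ l ∈ met, c h (u l h) ≤ c h (u i h) := fun h =>
    exists_max_image met (fun i => c h (u i h)) hmetne
  choose f hf1 hf2 using hbest
  -- many members have the same best face
  obtain ⟨i, hi, hbig⟩ : ∃ i ∈ met, B < ((D.filter fun h => f h = i).card : ℝ) := by
    by_contra hcon
    push Not at hcon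
    have h1 : (D.card : ℝ) = ∑ i ∈ met, ((D.filter fun h => f h = i).card : ℝ) := by
      exact_mod_cast card_eq_sum_card_fiberwise fun h _ => hf1 h
    have h2 : ∑ i ∈ met, ((D.filter fun h => f h = i).card : ℝ) ≤ ∑ i ∈ met, B :=
      sum_le_sum hcon
    rw [sum_const, nsmul_eq_mul] at h2
    have h3 := mul_le_mul_of_nonneg_right hMmet hB0
    have h4 : (Y.card : ℝ) = (Y \ D).card + D.card := by
      have := card_sdiff_add_card_eq_card (filter_subset (fun h => ∀ i ∈ met, h ∈ U i) Y)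
      exact_mod_cast this.symm
    have h5 : (M : ℝ) * A ≤ M * B := mul_le_mul_of_nonneg_left (by linarith) (by linarith)
    have h6 : 0 ≤ (M : ℝ) * B := by positivity
    linarith
  set Y' := D.filter fun h => f h = i with hY'
  have hY'D : Y' ⊆ D := filter_subset _ _
  have hDU : ∀ h ∈ D, ∀ l ∈ met, h ∈ U l := fun h hh => (mem_filter.1 hh).2
  have hY'Y : Y' ⊆ Y := hY'D.trans (filter_subset _ _)
  have hni := (f2 i hi).node hn
  have hJ := f1 i hi
  have hSi : S ⊆ (v i).1 := (subset_insert i S).trans (f4 i hi)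
  have hmetak : ∀ h ∈ D, met ⊆ ak (a h) (β h) (c h) K S (x h) := fun h hh l hl =>
    f5 l hl h (hDU h hh l hl)
  have hW := ihk Y' (u i) (v i) (lam0 + J i * η) (by positivity)
    (fun h hh => hni h (hDU h (hY'D hh) i hi)) hSi (by
      intro h hh
      have hhD := hY'D hh
      have hfi : f h = i := (mem_filter.1 hh).2
      have h1 : ak (a h) (β h) (c h) K S (u i h) ⊆ ak (a h) (β h) (c h) K S (x h) \ met := by
        intro l hl
        obtain ⟨l1, l2, y, l3, l4, l5, l6⟩ := mem_ak.1 hl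
        refine mem_sdiff.2 ⟨mem_ak.2 ⟨l1, l2, y, l3, l4, l5,
          ((f2 i hi).le h (hDU h hhD i hi)).trans_lt l6⟩, fun hlm => ?_⟩
        have hnl := (f2 l hlm).node hn
        have hhl := hDU h hhD l hlm
        have h2 := face_le (c := c h) (S := insert l S) (hnl h hhl).1
          (by rw [hnl.fst hhl]; exact f4 l hlm)
          (by rw [hnl.snd hhl]; exact f3 l hlm) l3 (fun q hq => by
            rcases mem_insert.1 hq with rfl | hq
            · exact l5
            · exact l4 q hq)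
        have h3 := hf2 h l hlm
        rw [hfi] at h3
        linarith
      have h2 := card_le_card h1
      rw [card_sdiff_of_subset (hmetak h hhD)] at h2
      have h3 := hact h ((f2 i hi).sub (hDU h hhD i hi))
      rw [pow_succ] at h3
      omega) (by
      have e1 : (J i : ℝ) + H + 1 ≤ L + 1 := by
        have : J i + H + 1 ≤ L + 1 := by omega
        exact_mod_cast this
      have e2 := mul_le_mul_of_nonneg_right e1 hη
      have e3 : lam0 + J i * η + (H + 1) * η ≤ A := by
        rw [hA]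
        linarith
      have e4 : (0 : ℝ) ≤ (4 * M) ^ (k + 1) := by positivity
      exact (mul_le_mul_of_nonneg_right e3 e4).trans_lt hbig)
  obtain ⟨j2, X2, x2, w2, r1, r2, r3, r4, r5⟩ := transfer hη hY'Y (Subset.refl K)
    (Subset.refl S) hn hl hnw hW (J i) (U i) (u i) rfl (f2 i hi) (fun g _ hg => ⟨hg, rfl⟩)
    (by omega)
    (fun j3 X3 x3 w3 hr3 hj3 => (hr3.node hn).sub_rows (hne _ _ _ _ (by omega) hr3)) (by
      have e1 := hlA (J i + H + 1) (by omega)
      push_cast at e1
      linarith) hSi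
  exact r1.notWin hnw (by omega) (Win.opt _ _ _ _ _ r4)

/-- **The majority form of the bound of Kalai and Kleitman.** -/
theorem majority {η : ℝ} (hη : 0 ≤ η) {M : ℕ} (hM : Fintype.card I ≤ M) (hM1 : 1 ≤ M) (p : ℕ) :
    ∀ (k : ℕ) (Y : Finset Ω) (K S : Finset I) (X : Finset Ω) (x : Ω → E) (w : Vw I) (lam0 : ℝ),
      (K \ S).card ≤ p → S ⊆ K → Node a β c K X x w → S ⊆ w.1 → X ⊆ Y →
      ((Y \ X).card : ℝ) ≤ lam0 →
      (∀ h ∈ X, (ak (a h) (β h) (c h) K S (x h)).card < 2 ^ k) →
      (lam0 + (kk p k + 1) * η) * (4 * M) ^ (k + 1) < Y.card →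
      Win a β c Y K S η lam0 X x w (kk p k) := by
  classical
  have hM1' : (1 : ℝ) ≤ M := by exact_mod_cast hM1
  induction p with
  | zero =>
    intro k Y K S X x w lam0 hcard hSK hn hS hXY hl hact hbud
    have hKS : K \ S = ∅ := by rw [← card_eq_zero]; omega
    refine majority_zero hη hl fun h _ => ?_
    rw [card_eq_zero, eq_empty_iff_forall_notMem]
    intro i hi
    obtain ⟨h1, h2, _⟩ := mem_ak.1 hi
    have : i ∈ K \ S := mem_sdiff.2 ⟨h1, h2⟩
    rw [hKS] at this
    exact notMem_empty _ this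
  | succ p ihp =>
    intro k
    induction k with
    | zero =>
      intro Y K S X x w lam0 hcard hSK hn hS hXY hl hact hbud
      refine majority_zero hη hl fun h hh => ?_
      have := hact h hh
      rw [pow_zero] at this
      omega
    | succ k ihk =>
      intro Y K S X x w lam0 hcard hSK hn hS hXY hl hact hbud
      by_contra hnw
      have hlam0 : 0 ≤ lam0 := le_trans (Nat.cast_nonneg _) hl
      set H := kk (p + 1) k with hH
      set T := kk p (k + 1) with hT
      set L := kk (p + 1) (k + 1) with hL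
      have hLe : L = 2 * H + T + 1 := by rw [hL, kk.eq_3]
      have hA0 : (0 : ℝ) ≤ lam0 + (L + 1) * η := by positivity
      have hpk : (1 : ℝ) ≤ (4 * M) ^ (k + 1) := one_le_pow₀ (by linarith)
      have hp2 : (lam0 + (L + 1) * η) * (4 * M) ^ (k + 2) =
          4 * M * ((lam0 + (L + 1) * η) * (4 * M) ^ (k + 1)) := by ring
      have hB0 : (lam0 + (L + 1) * η) ≤ (lam0 + (L + 1) * η) * (4 * M) ^ (k + 1) :=
        le_mul_of_one_le_right hA0 hpk
      have hB1 : 0 ≤ (lam0 + (L + 1) * η) * (4 * M) ^ (k + 1) := hA0.trans hB0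
      have hB2 := mul_le_mul_of_nonneg_right hM1' hB1
      have hbud' : 4 * ((lam0 + (L + 1) * η) * (4 * M) ^ (k + 1)) < Y.card := by
        have e : (k + 1 + 1 : ℕ) = k + 2 := rfl
        rw [e, hp2] at hbud
        linarith
      have hHL : (H : ℝ) + 1 ≤ L + 1 := by
        have : H + 1 ≤ L + 1 := by omega
        exact_mod_cast this
      have hHA : lam0 + (H + 1) * η ≤ lam0 + (L + 1) * η := by
        have := mul_le_mul_of_nonneg_right hHL hη
        linarith
      set met : Finset I := (K \ S).filter fun i => ∃ j X1 x1 w1, 1 ≤ j ∧ j ≤ H + 1 ∧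
        Reach a β c Y K S η lam0 X x w j X1 x1 w1 ∧ i ∈ w1.1 with hmet
      have hmet' : ∀ i, i ∈ met ↔ i ∈ K \ S ∧ ∃ j X1 x1 w1, 1 ≤ j ∧ j ≤ H + 1 ∧
          Reach a β c Y K S η lam0 X x w j X1 x1 w1 ∧ i ∈ w1.1 := fun i => mem_filter
      rcases lt_or_ge met.card (2 ^ k) with hfew | hmany
      · refine majority_few (H := H) hη (by omega) hSK hn hS hl hnw hcard (by linarith) met hmet'
          hfew fun K' h1 h2 h3 h4 => ?_
        refine ihk Y K' S X x w lam0 h1 h2 h3 hS hXY hl h4 ?_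
        have h5 : (0 : ℝ) ≤ (4 * M) ^ (k + 1) := by positivity
        have h6 := mul_le_mul_of_nonneg_right hHA h5
        linarith
      · refine majority_many (H := H) (T := T) hη hLe hM hM1 hn hS hXY hl hnw hcard hbud hact met
          hmet' hmany ?_ ?_
        · intro S' X' x' w' lam' g1 g2 g3 g4 g5 g6 g7
          by_cases hX' : X'.Nonempty
          · exact ihp (k + 1) Y K S' X' x' w' lam' g1 (g3.trans (g2.sub_rows hX')) g2 g3 g4 g5 g6
              g7
          · exfalso
            rw [not_nonempty_iff_eq_empty] at hX'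
            rw [hX', sdiff_empty] at g5
            have h1 : (1 : ℝ) ≤ (4 * M) ^ (k + 2) := one_le_pow₀ (by linarith)
            have h2 : 0 ≤ lam' := le_trans (Nat.cast_nonneg _) g5
            have h3 : 0 ≤ lam' + (T + 1) * η := by positivity
            have h4 := le_mul_of_one_le_right h3 h1
            have h5 : 0 ≤ ((T : ℝ) + 1) * η := by positivity
            linarith
        · intro Y' x' w' lam' g0 g1 g2 g3 g4
          by_cases hY' : Y'.Nonempty
          · refine ihk Y' K S Y' x' w' lam' hcard hSK g1 g2 (Subset.refl _) ?_ g3 g4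
            rw [sdiff_self]
            simpa using g0
          · exfalso
            rw [not_nonempty_iff_eq_empty] at hY'
            rw [hY'] at g4
            have h3 : 0 ≤ (lam' + (H + 1) * η) * (4 * M) ^ (k + 1) := by positivity
            simp at g4
            linarith

end Pool.Agent.K4H92.NO
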