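import Pool.Agent.K4H92.NO.Family
set_option autoImplicit false

/-!
# Vertices which are reached by predictable moves
-/

namespace Pool.Agent.K4H92.NO

open Finset Pool.Agent.K4H92.LP

variable {E : Type*} [AddCommGroup E] [Module ℝ E] {I : Type*} [Fintype I] [DecidableEq I]
  {Ω : Type*} [DecidableEq Ω]
  (a : Ω → I → E →ₗ[ℝ] ℝ) (β : Ω → I → ℝ) (c : Ω → E →ₗ[ℝ] ℝ)

/-- reached from `X0, x0, w0` by `j` predictable moves in the face `S` -/
inductive Reach (Y : Finset Ω) (K S : Finset I) (η lam0 : ℝ) (X0 : Finset Ω) (x0 : Ω → E)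
    (w0 : Vw I) : ℕ → Finset Ω → (Ω → E) → Vw I → Prop
  | refl : Reach Y K S η lam0 X0 x0 w0 0 X0 x0 w0
  | step (j : ℕ) (X : Finset Ω) (x : Ω → E) (w : Vw I) (Z : Finset I) (w' : Vw I)
      (h : Reach Y K S η lam0 X0 x0 w0 j X x w) (hZ : Z ∈ w.2) (hS : S ⊆ Z)
      (hc : ((Y \ cls a β c K Z X x (some w')).card : ℝ) ≤ lam0 + (j + 1) * η) :
      Reach Y K S η lam0 X0 x0 w0 (j + 1) (cls a β c K Z X x (some w')) (nx a β c K Z x) w'

variable {a β c} {Y Y' : Finset Ω} {K K' S S' : Finset I} {η lam0 : ℝ} {X0 X : Finset Ω}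
  {x0 x : Ω → E} {w0 w : Vw I} {j L : ℕ}

theorem Reach.zero (h : Reach a β c Y K S η lam0 X0 x0 w0 0 X x w) :
    X = X0 ∧ x = x0 ∧ w = w0 := by
  cases h
  exact ⟨rfl, rfl, rfl⟩

theorem Reach.sub (h : Reach a β c Y K S η lam0 X0 x0 w0 j X x w) : X ⊆ X0 := by
  induction h with
  | refl => exact Subset.rfl
  | step j X x w Z w' h hZ hS hc ih => exact fun g hg => ih (mem_cls.1 hg).1

theorem Reach.card (hl : ((Y \ X0).card : ℝ) ≤ lam0)
    (h : Reach a β c Y K S η lam0 X0 x0 w0 j X x w) : ((Y \ X).card : ℝ) ≤ lam0 + j * η := by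
  induction h with
  | refl => simpa using hl
  | step j X x w Z w' h hZ hS hc ih => push_cast; exact hc

theorem Reach.node (hn : Node a β c K X0 x0 w0)
    (h : Reach a β c Y K S η lam0 X0 x0 w0 j X x w) : Node a β c K X x w := by
  cases h with
  | refl => exact hn
  | step j X x w Z w' h hZ hS hc => exact Node.next

theorem Reach.le (h : Reach a β c Y K S η lam0 X0 x0 w0 j X x w) :
    ∀ g ∈ X, c g (x0 g) ≤ c g (x g) := by
  induction h with
  | refl => exact fun g _ => le_rfl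
  | step j X x w Z w' h hZ hS hc ih =>
    intro g hg
    obtain ⟨h1, h2, _⟩ := of_cls hg
    exact (ih g h1).trans h2.lt.le

theorem Reach.lt (h : Reach a β c Y K S η lam0 X0 x0 w0 j X x w) (hj : 1 ≤ j) :
    ∀ g ∈ X, c g (x0 g) < c g (x g) := by
  cases h with
  | refl => omega
  | step j X x w Z w' h hZ hS hc =>
    intro g hg
    obtain ⟨h1, h2, _⟩ := of_cls hg
    exact (h.le g h1).trans_lt h2.lt

theorem Node.fst (hn : Node a β c K X x w) {g : Ω} (hg : g ∈ X) :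
    tk (a g) (β g) K (x g) = w.1 := by
  rw [← (hn g hg).2]; rfl

theorem Node.snd (hn : Node a β c K X x w) {g : Ω} (hg : g ∈ X) :
    im (a g) (β g) (c g) K (x g) = w.2 := by
  rw [← (hn g hg).2]; rfl

theorem Node.sub_rows (hn : Node a β c K X x w) (hne : X.Nonempty) : w.1 ⊆ K := by
  obtain ⟨g, hg⟩ := hne
  rw [← hn.fst hg]
  exact fun i hi => (mem_tk.1 hi).1

theorem Reach.face (hS0 : S ⊆ w0.1) (hne : X.Nonempty)
    (h : Reach a β c Y K S η lam0 X0 x0 w0 j X x w) : S ⊆ w.1 := by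
  cases h with
  | refl => exact hS0
  | step j1 X1 x1 w1 Z w2 h hZ hS hc =>
    obtain ⟨g, hg⟩ := hne
    obtain ⟨h1, h2, h3⟩ := of_cls hg
    have h4 := h2.sub
    have h5 := congrArg Prod.fst h3
    rw [vw] at h5
    simp only at h5
    rw [h5] at h4
    exact hS.trans h4

theorem Reach.notWin (hnw : ¬ Win a β c Y K S η lam0 X0 x0 w0 L)
    (h : Reach a β c Y K S η lam0 X0 x0 w0 j X x w) (hj : j ≤ L) :
    ¬ Win a β c Y K S η (lam0 + j * η) X x w (L - j) := by
  induction h with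
  | refl => simpa using hnw
  | step j X x w Z w' h hZ hS hc ih =>
    intro hw
    apply ih (by omega)
    have e : L - j = L - (j + 1) + 1 := by omega
    rw [e]
    refine Win.step _ X x w _ Z w' hZ hS ?_ ?_
    · refine hc.trans (le_of_eq ?_)
      ring
    · have e2 : lam0 + (j : ℝ) * η + η = lam0 + ((j + 1 : ℕ) : ℝ) * η := by push_cast; ring
      rw [e2]
      exact hw

theorem exists_next {lam : ℝ} {N : ℕ} (hnw : ¬ Win a β c Y K S η lam X x w N) {Z : Finset I}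
    (hZ : Z ∈ w.2) (hS : S ⊆ Z) :
    ∃ w', ((Y \ cls a β c K Z X x (some w')).card : ℝ) ≤ lam + η := by
  by_contra hcon
  push Not at hcon
  by_cases h0 : ((Y \ cls a β c K Z X x none).card : ℝ) ≤ lam + η
  · exact hnw (Win.unb lam X x w N Z hZ hS h0)
  · push Not at h0
    refine hnw (Win.info lam X x w N Z hZ hS fun o => ?_)
    cases o with
    | none => exact h0
    | some w' => exact hcon w'

theorem Reach.exists_next (hnw : ¬ Win a β c Y K S η lam0 X0 x0 w0 L)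
    (h : Reach a β c Y K S η lam0 X0 x0 w0 j X x w) (hj : j ≤ L) {Z : Finset I}
    (hZ : Z ∈ w.2) (hS : S ⊆ Z) :
    ∃ w', Reach a β c Y K S η lam0 X0 x0 w0 (j + 1) (cls a β c K Z X x (some w'))
      (nx a β c K Z x) w' := by
  obtain ⟨w', hw'⟩ := Pool.Agent.K4H92.NO.exists_next (h.notWin hnw hj) hZ hS
  refine ⟨w', Reach.step j X x w Z w' h hZ hS (hw'.trans (le_of_eq ?_))⟩
  ring

theorem two_classes {Z : Finset I} {o o' : Option (Vw I)} (ho : o ≠ o') :
    (Y.card : ℝ) ≤ (Y \ cls a β c K Z X x o).card + (Y \ cls a β c K Z X x o').card := by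
  have h : Y ⊆ (Y \ cls a β c K Z X x o) ∪ (Y \ cls a β c K Z X x o') := by
    intro g hg
    rw [mem_union, mem_sdiff, mem_sdiff]
    by_cases h1 : g ∈ cls a β c K Z X x o
    · right
      refine ⟨hg, fun h2 => ho ?_⟩
      rw [← (mem_cls.1 h1).2, ← (mem_cls.1 h2).2]
    · exact Or.inl ⟨hg, h1⟩
  exact_mod_cast (card_le_card h).trans (card_union_le _ _)

/-- a move in the large family and in the small family -/
theorem sim (hK : K' ⊆ K) (hn : Node a β c K X x w) (hw : w.1 ⊆ K') {X' : Finset Ω}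
    {x' : Ω → E} (hX : ∀ g ∈ X, g ∈ Y' → g ∈ X' ∧ x' g = x g) {Z : Finset I} {w1 : Vw I}
    (hw1 : w1.1 ⊆ K') :
    ∀ g ∈ cls a β c K Z X x (some w1), g ∈ Y' → g ∈ cls a β c K' Z X' x' (some w1) ∧
      nx a β c K' Z x' g = nx a β c K Z x g := by
  intro g hg hgY
  obtain ⟨h1, h2, h3⟩ := of_cls hg
  obtain ⟨h4, h5⟩ := hX g h1 hgY
  have t1 : tk (a g) (β g) K (x g) ⊆ K' := by rw [hn.fst h1]; exact hw
  have t2 : tk (a g) (β g) K (nx a β c K Z x g) = w1.1 := by rw [← h3]; rfl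
  have t2' : tk (a g) (β g) K (nx a β c K Z x g) ⊆ K' := by rw [t2]; exact hw1
  have h6 := h2.sub_rows hK t1 t2'
  rw [← h5] at h6
  refine ⟨mem_cls.2 ⟨h4, ?_⟩, nx_eq h6⟩
  rw [out_eq h6, ← h3, vw, vw, tk_sub hK t2', im_sub hK t2']

theorem sim_card (hY : Y' ⊆ Y) (hK : K' ⊆ K) (hn : Node a β c K X x w) (hw : w.1 ⊆ K')
    {X' : Finset Ω} {x' : Ω → E} (hX : ∀ g ∈ X, g ∈ Y' → g ∈ X' ∧ x' g = x g) {Z : Finset I}
    {w1 : Vw I} (hw1 : w1.1 ⊆ K') :
    ((Y' \ cls a β c K' Z X' x' (some w1)).card : ℝ) ≤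
      (Y \ cls a β c K Z X x (some w1)).card := by
  have h : Y' \ cls a β c K' Z X' x' (some w1) ⊆ Y \ cls a β c K Z X x (some w1) := by
    intro g hg
    obtain ⟨h1, h2⟩ := mem_sdiff.1 hg
    exact mem_sdiff.2 ⟨hY h1, fun h3 => h2 (sim hK hn hw hX hw1 g h3 h1).1⟩
  exact_mod_cast card_le_card h

/-- a strategy for a subfamily, for fewer rows and a smaller face leads to the best vertex of the
smaller face, if no strategy works for the large family -/
theorem transfer (hη : 0 ≤ η) (hY : Y' ⊆ Y) (hK : K' ⊆ K) (hSS : S ⊆ S')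
    (hn0 : Node a β c K X0 x0 w0) (hl0 : ((Y \ X0).card : ℝ) ≤ lam0)
    (hnw : ¬ Win a β c Y K S η lam0 X0 x0 w0 L) {lam' : ℝ} {X' : Finset Ω} {x' : Ω → E}
    {w : Vw I} {N : ℕ} (hw : Win a β c Y' K' S' η lam' X' x' w N) :
    ∀ (j : ℕ) (X : Finset Ω) (x : Ω → E), lam' = lam0 + j * η →
      Reach a β c Y K S η lam0 X0 x0 w0 j X x w → (∀ g ∈ X, g ∈ Y' → g ∈ X' ∧ x' g = x g) →
      j + N ≤ L → (∀ j1 X1 x1 w1, Reach a β c Y K S η lam0 X0 x0 w0 j1 X1 x1 w1 →
        j1 ≤ j + N + 1 → w1.1 ⊆ K') →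
      2 * (lam0 + (j + N + 1) * η) < Y'.card → S' ⊆ w.1 →
      ∃ j1 X1 x1 w1, Reach a β c Y K S η lam0 X0 x0 w0 j1 X1 x1 w1 ∧ j1 ≤ j + N ∧ X1 ⊆ X ∧
        (∀ Z ∈ w1.2, ¬ S' ⊆ Z) ∧ S' ⊆ w1.1 := by
  induction hw with
  | opt lam X' x' w N h =>
    intro j X x hlam hr hX hj hK' hmaj hS'
    exact ⟨j, X, x, w, hr, by omega, Subset.rfl, h, hS'⟩
  | unb lam X' x' w N Z hZ hS h =>
    intro j X x hlam hr hX hj hK' hmaj hS'
    exfalso
    obtain ⟨w1, hr1⟩ := hr.exists_next hnw (by omega) hZ (hSS.trans hS)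
    have h1 := hr1.card hl0
    have h2 := sim_card (Y' := Y') (Z := Z) hY hK (hr.node hn0) (hK' _ _ _ _ hr (by omega)) hX
      (hK' _ _ _ _ hr1 (by omega))
    have h3 := two_classes (a := a) (β := β) (c := c) (Y := Y') (K := K') (X := X') (x := x')
      (Z := Z) (o := some w1) (o' := none) (by simp)
    push_cast at h1
    have h4 : (0 : ℝ) ≤ N * η := by positivity
    rw [hlam] at h
    linarith
  | info lam X' x' w N Z hZ hS h =>
    intro j X x hlam hr hX hj hK' hmaj hS'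
    exfalso
    obtain ⟨w1, hr1⟩ := hr.exists_next hnw (by omega) hZ (hSS.trans hS)
    have h1 := hr1.card hl0
    have h2 := sim_card (Y' := Y') (Z := Z) hY hK (hr.node hn0) (hK' _ _ _ _ hr (by omega)) hX
      (hK' _ _ _ _ hr1 (by omega))
    have h3 := h (some w1)
    push_cast at h1
    rw [hlam] at h3
    linarith
  | step lam X' x' w N Z w' hZ hS hc h ih =>
    intro j X x hlam hr hX hj hK' hmaj hS'
    obtain ⟨w1, hr1⟩ := hr.exists_next hnw (by omega) hZ (hSS.trans hS)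
    have h1 := hr1.card hl0
    have h2 := sim_card (Y' := Y') (Z := Z) hY hK (hr.node hn0) (hK' _ _ _ _ hr (by omega)) hX
      (hK' _ _ _ _ hr1 (by omega))
    push_cast at h1 hmaj
    have h4 : (0 : ℝ) ≤ N * η := by positivity
    have hww : w1 = w' := by
      by_contra hne
      have h3 := two_classes (a := a) (β := β) (c := c) (Y := Y') (K := K') (X := X') (x := x')
        (Z := Z) (o := some w1) (o' := some w') (by simpa using hne)
      rw [hlam] at hc
      linarith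
    subst hww
    have hne : (cls a β c K Z X x (some w1)).Nonempty := by
      by_contra hcon
      rw [not_nonempty_iff_eq_empty] at hcon
      rw [hcon, sdiff_empty] at h1
      have : (Y'.card : ℝ) ≤ Y.card := by exact_mod_cast card_le_card hY
      have h5 : (0 : ℝ) ≤ lam0 + (j + 1) * η := le_trans (Nat.cast_nonneg _) h1
      linarith
    have hSw : S' ⊆ w1.1 := by
      obtain ⟨g, hg⟩ := hne
      obtain ⟨g1, g2, g3⟩ := of_cls hg
      have h4 := g2.sub
      have h5 : tk (a g) (β g) K (nx a β c K Z x g) = w1.1 := by rw [← g3]; rfl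
      rw [h5] at h4
      exact hS.trans h4
    obtain ⟨j1, X1, x1, w2, r1, r2, r3, r4, r5⟩ := ih (j + 1) _ _ (by rw [hlam]; push_cast; ring)
      hr1 (fun g hg hgY => sim hK (hr.node hn0) (hK' _ _ _ _ hr (by omega)) hX
        (hK' _ _ _ _ hr1 (by omega)) g hg hgY) (by omega)
      (fun j1 X1 x1 w1 hr' hj' => hK' j1 X1 x1 w1 hr' (by omega)) (by
        push_cast
        have e : 2 * (lam0 + ((j : ℝ) + 1 + N + 1) * η) = 2 * (lam0 + ((j : ℝ) + (N + 1) + 1) * η) := by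
          ring
        rw [e]
        exact hmaj) hSw
    exact ⟨j1, X1, x1, w2, r1, by omega, fun g hg => (mem_cls.1 (r3 hg)).1, r4, r5⟩

end Pool.Agent.K4H92.NO
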