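import Pool.Agent.K4H92.NO.Spec2
set_option autoImplicit false

/-!
# One rule for all linear programs

The rule keeps the set of the representatives (one program of each combinatorial type) which agree with
everything told so far, and plays the strategies `Sol` for them.  A program and its representative give the
same views (`next_same`), so the rule finds an end for every program.
-/

namespace Pool.Agent.K4H92.NO

open Finset Pool.Agent.K4H92.LP

variable {m n : ℕ}

theorem tk_univ (z : Data m n) (x : Fin n → ℝ) :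
    tk (fa m n z) (fb m n z) univ x = tight (rows z.1) (rhs z.2.1) x := rfl

theorem zr_zer (z : Data m n) (T : Finset (Ix m n)) (e : Fin n → ℝ) :
    zr (fa m n z) T e = zer z.1 T e := rfl

theorem im_impr (z : Data m n) (x : Fin n → ℝ) :
    im (fa m n z) (fb m n z) (fc m n z) univ x =
      impr z.1 z.2 (tight (rows z.1) (rhs z.2.1) x) := rfl

theorem vk_vert (z : Data m n) (x : Fin n → ℝ) :
    VK (fa m n z) (fb m n z) univ x ↔ Vert (rows z.1) (rhs z.2.1) x := by
  constructor
  · rintro ⟨h1, h2⟩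
    exact ⟨fun i => h1 i (mem_univ i), h2⟩
  · rintro ⟨h1, h2⟩
    exact ⟨fun i _ => h1 i, h2⟩

/-- the view at a vertex of a program -/
noncomputable def vz (z : Data m n) (x : Fin n → ℝ) : Vw (Ix m n) :=
  vw (fa m n) (fb m n) (fc m n) univ z x

theorem vz_eq (z : Data m n) (x : Fin n → ℝ) :
    vz z x = Pool.Agent.K4H92.LP.vw z.1 z.2 x := rfl

/-- programs of the same type have vertices with the same views -/
theorem exists_same {z h : Data m n} (hs : SameType z h) {x : Fin n → ℝ}
    (hx : VK (fa m n z) (fb m n z) univ x) :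
    ∃ y, VK (fa m n h) (fb m n h) univ y ∧ vz h y = vz z x := by
  have h1 : VT z (tight (rows z.1) (rhs z.2.1) x) := ⟨x, (vk_vert z x).1 hx, rfl⟩
  obtain ⟨y, hy, hyt⟩ := (hs.1 _).1 h1
  refine ⟨y, (vk_vert h y).2 hy, ?_⟩
  have h2 := hs.2 _ h1
  change (tight (rows h.1) (rhs h.2.1) y, impr h.1 h.2 (tight (rows h.1) (rhs h.2.1) y)) =
    (tight (rows z.1) (rhs z.2.1) x, impr z.1 z.2 (tight (rows z.1) (rhs z.2.1) x))
  rw [hyt, h2]

/-- programs of the same type have the same moves -/
theorem next_same {z h : Data m n} (hs : SameType z h) {x xh y : Fin n → ℝ}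
    {Z : Finset (Ix m n)} (hxh : VK (fa m n h) (fb m n h) univ xh) (hv : vz h xh = vz z x)
    (hst : St (fa m n z) (fb m n z) (fc m n z) univ x Z y) :
    ∃ yh, St (fa m n h) (fb m n h) (fc m n h) univ xh Z yh ∧ vz h yh = vz z y := by
  obtain ⟨yh, hyh, hvy⟩ := exists_same hs hst.2.1
  refine ⟨yh, ?_, hvy⟩
  have hT : tight (rows h.1) (rhs h.2.1) xh = tight (rows z.1) (rhs z.2.1) x := congrArg Prod.fst hv
  have hT' : tight (rows h.1) (rhs h.2.1) yh = tight (rows z.1) (rhs z.2.1) y :=
    congrArg Prod.fst hvy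
  have hI : im (fa m n h) (fb m n h) (fc m n h) univ xh =
      im (fa m n z) (fb m n z) (fc m n z) univ x := congrArg Prod.snd hv
  have hZ := hst.mem
  have hZT' := hst.sub
  rw [← hI] at hZ
  obtain ⟨e', he', hc', hZe'⟩ := hZ
  obtain ⟨_, _, e, t, he, _, hZe, ht, hy, _⟩ := hst
  -- the difference of the two vertices is a multiple of `e'`
  obtain ⟨s, hs'⟩ := he'.2.2 (yh - xh) (fun i hi h0 => by
    have h1 : i ∈ Z := by rw [hZe']; exact mem_zr.2 ⟨hi, h0⟩
    have h2 := hZT' h1
    rw [tk_univ, ← hT'] at h2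
    rw [map_sub]
    have h3 := mem_tight.1 h2
    have h4 := mem_tight.1 (show i ∈ tight (rows h.1) (rhs h.2.1) xh from hi)
    change rows h.1 i yh - rows h.1 i xh = 0
    rw [h3, h4, sub_self])
  have hyxs : yh = xh + s • e' := by rw [← hs']; abel
  have hvx := (vk_vert h xh).1 hxh
  have hvy' := (vk_vert h yh).1 hyh
  have hs0 : 0 ≤ s := by
    refine step_nonneg (v := xh) (e := e') he' ?_
    rw [← hyxs]
    exact hvy'.1
  have hne : s ≠ 0 := by
    rintro rfl
    rw [zero_smul, add_zero] at hyxs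
    rw [hyxs, hT] at hT'
    obtain ⟨i, hi, hie⟩ := he.exists_neg
    have h1 : i ∈ tight (rows z.1) (rhs z.2.1) y := by rw [← hT']; exact hi
    have h2 := mem_tight.1 h1
    have h3 := mem_tight.1 (show i ∈ tight (rows z.1) (rhs z.2.1) x from hi)
    rw [hy, map_add, map_smul, smul_eq_mul, h3] at h2
    have h4 : t * rows z.1 i e = 0 := by linarith
    rcases mul_eq_zero.1 h4 with h5 | h5
    · exact ht.ne' h5
    · exact absurd h5 (show fa m n z i e < 0 from hie).ne
  have hspos : 0 < s := lt_of_le_of_ne hs0 hne.symm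
  obtain ⟨k, hk, hke⟩ := tight_pos hvx hspos he' (by rw [← hyxs]; exact hvy')
  rw [← hyxs] at hk
  exact ⟨hxh, hyh, e', s, he', hc', hZe', hspos, hyxs, k, hk, hke⟩

/-- the state of the rule: remaining moves, the representatives, their vertices -/
abbrev Stt (m n : ℕ) : Type := ℕ × Finset (Data m n) × (Data m n → Fin n → ℝ)

/-- the representatives which agree so far after the move `Z` and the view `w'` -/
noncomputable def cl (s : Stt m n) (Z : Finset (Ix m n)) (w' : Vw (Ix m n)) :
    Finset (Data m n) :=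
  cls (fa m n) (fb m n) (fc m n) univ Z s.2.1 s.2.2 (some w')

/-- their vertices -/
noncomputable def nz (s : Stt m n) (Z : Finset (Ix m n)) : Data m n → Fin n → ℝ :=
  nx (fa m n) (fb m n) (fc m n) univ Z s.2.2

/-- there is a strategy from the state `s` and the view `w` -/
def Sl (s : Stt m n) (w : Vw (Ix m n)) : Prop :=
  Sol (fa m n) (fb m n) (fc m n) univ s.1 s.2.1 s.2.2 w

open Classical in
/-- the choice of the rule -/
noncomputable def ch (s : Stt m n) (w : Vw (Ix m n)) : Finset (Ix m n) :=
  if h : ∃ Z ∈ w.2, ∀ w', (cl s Z w').Nonempty → Sl (s.1 - 1, cl s Z w', nz s Z) w'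
  then h.choose else ∅

theorem ch_spec {s : Stt m n} {w : Vw (Ix m n)} (h : Sl s w) (hw : w.2 ≠ ∅) :
    1 ≤ s.1 ∧ ch s w ∈ w.2 ∧
      ∀ w', (cl s (ch s w) w').Nonempty → Sl (s.1 - 1, cl s (ch s w) w', nz s (ch s w)) w' := by
  obtain ⟨M, X, x⟩ := s
  have key : 1 ≤ M ∧ ∃ Z ∈ w.2, ∀ w', (cl (M, X, x) Z w').Nonempty →
      Sl (M - 1, cl (M, X, x) Z w', nz (M, X, x) Z) w' := by
    have h' : Sol (fa m n) (fb m n) (fc m n) univ M X x w := h
    cases h' with
    | opt _ _ _ _ h0 => exact absurd h0 hw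
    | move N _ _ _ Z hZ h1 => exact ⟨Nat.succ_pos N, Z, hZ, h1⟩
  refine ⟨key.1, ?_⟩
  have h2 := key.2
  have h3 : ch (M, X, x) w = h2.choose := by rw [ch]; exact dif_pos h2
  rw [h3]
  exact h2.choose_spec

/-- the next state -/
noncomputable def stp (p : Stt m n × Vw (Ix m n)) (w' : Vw (Ix m n)) :
    Stt m n × Vw (Ix m n) :=
  ((p.1.1 - 1, cl p.1 (ch p.1 p.2) w', nz p.1 (ch p.1 p.2)), w')

open Classical in
/-- the representatives which agree with the first view -/
noncomputable def X0 (R : Finset (Data m n)) (w : Vw (Ix m n)) : Finset (Data m n) :=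
  R.filter fun h => ∃ v, VK (fa m n h) (fb m n h) univ v ∧ vz h v = w

open Classical in
/-- their vertices -/
noncomputable def x0 (w : Vw (Ix m n)) (h : Data m n) : Fin n → ℝ :=
  if hh : ∃ v, VK (fa m n h) (fb m n h) univ v ∧ vz h v = w then hh.choose else 0

theorem node0 (R : Finset (Data m n)) (w : Vw (Ix m n)) :
    Node (fa m n) (fb m n) (fc m n) univ (X0 R w) (x0 w) w := by
  classical
  intro h hh
  have h1 : ∃ v, VK (fa m n h) (fb m n h) univ v ∧ vz h v = w := (mem_filter.1 hh).2
  have h2 : x0 w h = h1.choose := by rw [x0]; exact dif_pos h1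
  rw [h2]
  exact h1.choose_spec

/-- the states along a history -/
noncomputable def stF (N : ℕ) (R : Finset (Data m n)) :
    Option (Stt m n × Vw (Ix m n)) → Vw (Ix m n) → Option (Stt m n × Vw (Ix m n))
  | none, w => some ((N, X0 R w, x0 w), w)
  | some p, w => some (stp p w)

/-- the choice at a state -/
noncomputable def chO : Option (Stt m n × Vw (Ix m n)) → Finset (Ix m n)
  | none => ∅
  | some p => ch p.1 p.2

/-- the rule -/
noncomputable def rul (N : ℕ) (R : Finset (Data m n)) (l : List (Vw (Ix m n))) :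
    Finset (Ix m n) := chO (l.foldl (stF N R) none)

/-- the end of a walk, the last history being `l` -/
def Fin' (z : Data m n) (x : Fin n → ℝ) (Zn : Finset (Ix m n)) : Prop :=
  (∀ y ∈ PP (rows z.1) (rhs z.2.1), lf z.2.2 y ≤ lf z.2.2 x) ∨
    ∃ e, Dir (rows z.1) (tight (rows z.1) (rhs z.2.1) x) e ∧ 0 < lf z.2.2 e ∧
      (∀ i, rows z.1 i e ≤ 0) ∧ zer z.1 (tight (rows z.1) (rhs z.2.1) x) e = Zn

theorem run_exists {z h : Data m n} (hs : SameType z h) (N : ℕ) (R : Finset (Data m n)) (M : ℕ) :
    ∀ (l : List (Vw (Ix m n))) (X : Finset (Data m n)) (xx : Data m n → Fin n → ℝ)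
      (v : Fin n → ℝ),
      l.foldl (stF N R) none = some ((M, X, xx), vz z v) →
      VK (fa m n z) (fb m n z) univ v → h ∈ X →
      Node (fa m n) (fb m n) (fc m n) univ X xx (vz z v) → Sl (M, X, xx) (vz z v) →
      ∃ N' ≤ M, ∃ x : ℕ → Fin n → ℝ, x 0 = v ∧
        (∀ k < N', St (fa m n z) (fb m n z) (fc m n z) univ (x k)
          (rul N R (l ++ (List.range k).map fun j => vz z (x (j + 1)))) (x (k + 1))) ∧
        VK (fa m n z) (fb m n z) univ (x N') ∧
        Fin' z (x N') (rul N R (l ++ (List.range N').map fun j => vz z (x (j + 1)))) := by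
  induction M with
  | zero =>
    intro l X xx v hl hv hX hn hS
    refine ⟨0, le_rfl, fun _ => v, rfl, fun k hk => absurd hk (Nat.not_lt_zero k), hv, ?_⟩
    by_cases hw : (vz z v).2 = ∅
    · left
      intro y hy
      refine vert_le ((vk_vert z v).1 hv) (fun e he => ?_) hy
      by_contra hcon
      push Not at hcon
      have : zer z.1 (tight (rows z.1) (rhs z.2.1) v) e ∈ (vz z v).2 := ⟨e, he, hcon, rfl⟩
      rw [hw] at this
      exact this
    · exact absurd (ch_spec hS hw).1 (by norm_num)
  | succ M ih =>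
    intro l X xx v hl hv hX hn hS
    by_cases hw : (vz z v).2 = ∅
    · refine ⟨0, Nat.zero_le _, fun _ => v, rfl, fun k hk => absurd hk (Nat.not_lt_zero k), hv, ?_⟩
      left
      intro y hy
      refine vert_le ((vk_vert z v).1 hv) (fun e he => ?_) hy
      by_contra hcon
      push Not at hcon
      have : zer z.1 (tight (rows z.1) (rhs z.2.1) v) e ∈ (vz z v).2 := ⟨e, he, hcon, rfl⟩
      rw [hw] at this
      exact this
    · obtain ⟨_, hZ, hnext⟩ := ch_spec hS hw
      have hrul : rul N R l = ch (M + 1, X, xx) (vz z v) := by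
        rw [rul, hl]; rfl
      rcases exists_st hv hZ with ⟨y, hy⟩ | ⟨e, he, hc, hZe, hu⟩
      · -- a move
        obtain ⟨yh, hyh, hvy⟩ := next_same hs (hn h hX).1 (hn h hX).2 hy
        have hmem : h ∈ cl (M + 1, X, xx) (ch (M + 1, X, xx) (vz z v)) (vz z y) := by
          refine mem_cls.2 ⟨hX, ?_⟩
          rw [out_eq hyh]
          exact congrArg some hvy
        have hstep : (l ++ [vz z y]).foldl (stF N R) none =
            some ((M, cl (M + 1, X, xx) (ch (M + 1, X, xx) (vz z v)) (vz z y),
              nz (M + 1, X, xx) (ch (M + 1, X, xx) (vz z v))), vz z y) := by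
          rw [List.foldl_append, hl]
          rfl
        obtain ⟨N', hN', x, hx0, hx1, hx2, hx3⟩ := ih (l ++ [vz z y]) _ _ y hstep hy.2.1 hmem
          Node.next (hnext _ ⟨h, hmem⟩)
        have hviews : ∀ k, (l ++ (List.range (k + 1)).map fun j =>
            vz z ((fun i => Nat.casesOn i v x : ℕ → Fin n → ℝ) (j + 1))) =
            (l ++ [vz z y]) ++ (List.range k).map fun j => vz z (x (j + 1)) := by
          intro k
          rw [List.range_succ_eq_map, List.map_cons, List.map_map, List.append_assoc]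
          simp only [List.singleton_append]
          congr 2
          change vz z (x 0) = vz z y
          rw [hx0]
        refine ⟨N' + 1, Nat.succ_le_succ hN', fun i => Nat.casesOn i v x, rfl, ?_, hx2, ?_⟩
        · intro k hk
          rcases k with _ | k
          · simp only [List.range_zero, List.map_nil, List.append_nil]
            rw [hrul, hx0]
            exact hy
          · rw [hviews k]
            exact hx1 k (by omega)
        · rw [hviews N']
          exact hx3
      · -- an unbounded edge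
        refine ⟨0, Nat.zero_le _, fun _ => v, rfl, fun k hk => absurd hk (Nat.not_lt_zero k), hv, ?_⟩
        right
        refine ⟨e, he, hc, fun i => hu i (mem_univ i), ?_⟩
        simp only [List.range_zero, List.map_nil, List.append_nil]
        rw [hrul]
        exact hZe.symm

theorem rule_of_sol (m n : ℕ) : RuleOfSol m n := by
  classical
  intro N R hR hS
  refine ⟨rul N R, fun z v hv => ?_⟩
  obtain ⟨h, hhR, hs⟩ := hR z
  have hv' := (vk_vert z v).2 hv
  have hX : h ∈ X0 R (vz z v) := mem_filter.2 ⟨hhR, exists_same hs hv'⟩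
  have hn := node0 R (vz z v)
  have hSl : Sl (N, X0 R (vz z v), x0 (vz z v)) (vz z v) :=
    hS _ _ _ (filter_subset _ _) ⟨h, hX⟩ hn
  obtain ⟨N', hN', x, hx0, hx1, hx2, hx3⟩ := run_exists hs N R N [vz z v] _ _ v rfl hv' hX hn hSl
  have hhist : ∀ k, hist z.1 z.2 x k =
      [vz z v] ++ (List.range k).map fun j => vz z (x (j + 1)) := by
    intro k
    rw [hist, List.range_succ_eq_map, List.map_cons, List.map_map, hx0]
    rfl
  refine ⟨N', hN', x, hx0, ⟨fun k hk => ?_, fun k hk => ?_⟩, fun k hk e t ht he hxk => ?_, ?_⟩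
  · rcases hk.lt_or_eq with h1 | h1
    · exact (vk_vert z _).1 (hx1 k h1).1
    · rw [h1]; exact (vk_vert z _).1 hx2
  · obtain ⟨_, _, e, t, he, hc, _, ht, hy, _⟩ := hx1 k hk
    exact ⟨e, t, he, ht, hy, hc⟩
  · rw [hhist k]
    obtain ⟨_, _, e₁, t₁, he₁, _, hZ, ht₁, hy, _⟩ := hx1 k hk
    have h7 : e = (t₁ / t) • e₁ := by
      have : t • e = t₁ • e₁ := add_left_cancel (hxk.symm.trans hy)
      rw [div_eq_inv_mul, mul_smul, ← this, smul_smul, inv_mul_cancel₀ ht.ne', one_smul]
    have h8 : e = e₁ := he₁.eq_of_smul he h7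
    rw [h8]
    exact hZ.symm
  · rw [hhist N']
    exact hx3

end Pool.Agent.K4H92.NO
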