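import Pool.Agent.K4H92.NO.Spec
set_option autoImplicit false

/-!
# The sign vector of a linear program
-/

namespace Pool.Agent.K4H92.NO

open Finset Pool.Agent.K4H92.LP

variable {m n : ℕ}

/-- coefficient vectors of the rows; `none` is the objective -/
def row (z : Data m n) : Option (Ix m n) → Fin n → ℝ
  | some (Sum.inl i) => z.1 i
  | some (Sum.inr j) => fun l => if l = j then -1 else 0
  | none => z.2.2

/-- determinant of the rows `r 0, ..., r (n - 1)` -/
noncomputable def D (z : Data m n) (r : Fin n → Option (Ix m n)) : ℝ :=
  Matrix.det (Matrix.of fun k => row z (r k))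

/-- `D r * (β i - a i x)` for the solution `x` of `a (r k) x = β (r k)` -/
noncomputable def q (z : Data m n) (r : Fin n → Ix m n) (i : Ix m n) : ℝ :=
  D z (fun k => some (r k)) * rhs z.2.1 i -
    ∑ k, rhs z.2.1 (r k) * D z (Function.update (fun k => some (r k)) k (some i))

/-- indices of the sign vector -/
abbrev J (m n : ℕ) : Type := (Fin n → Option (Ix m n)) ⊕ ((Fin n → Ix m n) × Ix m n)

/-- the sign vector -/
noncomputable def sg (z : Data m n) : J m n → SignType
  | Sum.inl r => SignType.sign (D z r)
  | Sum.inr p => SignType.sign (q z p.1 p.2)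

end Pool.Agent.K4H92.NO
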