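import Pool.Agent.K4H92.LP.Game
set_option autoImplicit false

/-!
# Linear programs of the same combinatorial type
-/

namespace Pool.Agent.K4H92.NO

open Finset Pool.Agent.K4H92.LP

/-- all data of a linear program: `A`, `b` and `c` -/
abbrev Data (m n : ℕ) : Type := (Fin m → Fin n → ℝ) × (Fin m → ℝ) × (Fin n → ℝ)

variable {m n : ℕ}

/-- `T` is the set of tight rows of a vertex -/
def VT (z : Data m n) (T : Finset (Ix m n)) : Prop := ∃ x, AtT z.1 z.2 T x

/-- the same sets of tight rows of vertices, and the same names of improving directions there -/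
def SameType (z z' : Data m n) : Prop :=
  (∀ T, VT z T ↔ VT z' T) ∧ ∀ T, VT z T → impr z.1 z.2 T = impr z'.1 z'.2 T

/-- piece P-TYPES: there are at most `2 ^ ((m + n + 3) ^ 4)` combinatorial types -/
def ExistsTypes (m n : ℕ) : Prop :=
  ∃ R : Finset (Data m n), R.card ≤ 2 ^ ((m + n + 3) ^ 4) ∧ ∀ z, ∃ z' ∈ R, SameType z z'

end Pool.Agent.K4H92.NO
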