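import Pool.Agent.K4H92.NO.Spec
import Pool.Agent.K4H92.NO.Family
import Pool.Agent.K4H92.LP.Main
set_option autoImplicit false

/-!
# Statements of the pieces
-/

namespace Pool.Agent.K4H92.NO

open Finset Pool.Agent.K4H92.LP

variable {m n : ℕ}

/-- the family of all programs: rows -/
noncomputable def fa (m n : ℕ) : Data m n → Ix m n → (Fin n → ℝ) →ₗ[ℝ] ℝ := fun z => rows z.1

/-- the family of all programs: right-hand sides -/
def fb (m n : ℕ) : Data m n → Ix m n → ℝ := fun z => rhs z.2.1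

/-- the family of all programs: objectives -/
noncomputable def fc (m n : ℕ) : Data m n → (Fin n → ℝ) →ₗ[ℝ] ℝ := fun z => lf z.2.2

/-- `ρ` finds an end within `N` pivots, for all data -/
def WorksFor (m n : ℕ) (N : ℕ)
    (ρ : List (Finset (Ix m n) × Set (Finset (Ix m n))) → Finset (Ix m n)) : Prop :=
  ∀ (z : Data m n) (v : Fin n → ℝ), Vert (rows z.1) (rhs z.2.1) v →
    ∃ N' ≤ N, ∃ x : ℕ → Fin n → ℝ, x 0 = v ∧ Seq z.1 z.2 x N' ∧
      (∀ k < N', ∀ e, ∀ t : ℝ, 0 < t → Dir (rows z.1) (tight (rows z.1) (rhs z.2.1) (x k)) e →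
        x (k + 1) = x k + t • e →
        zer z.1 (tight (rows z.1) (rhs z.2.1) (x k)) e = ρ (hist z.1 z.2 x k)) ∧
      ((∀ y ∈ PP (rows z.1) (rhs z.2.1), lf z.2.2 y ≤ lf z.2.2 (x N')) ∨
        ∃ e, Dir (rows z.1) (tight (rows z.1) (rhs z.2.1) (x N')) e ∧ 0 < lf z.2.2 e ∧
          (∀ i, rows z.1 i e ≤ 0) ∧
          zer z.1 (tight (rows z.1) (rhs z.2.1) (x N')) e = ρ (hist z.1 z.2 x N'))

open Classical in
/-- piece P-RULE -/
def RuleOfSol (m n : ℕ) : Prop :=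
  ∀ (N : ℕ) (R : Finset (Data m n)), (∀ z, ∃ z' ∈ R, SameType z z') →
    (∀ (X : Finset (Data m n)) (x : Data m n → Fin n → ℝ) (w : Vw (Ix m n)), X ⊆ R →
      X.Nonempty → Node (fa m n) (fb m n) (fc m n) univ X x w →
      Sol (fa m n) (fb m n) (fc m n) univ N X x w) →
    ∃ ρ, WorksFor m n N ρ

open Classical in
/-- piece P-GAME -/
def SolOfWin (m n : ℕ) : Prop :=
  ∀ (L P Q : ℕ) (R : Finset (Data m n)), 2 * (L + 1) ≤ Q → 1 ≤ P → R.card ≤ 2 ^ P →
    (∀ (X : Finset (Data m n)) (x : Data m n → Fin n → ℝ) (w : Vw (Ix m n)), X ⊆ R →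
      X.Nonempty → Node (fa m n) (fb m n) (fc m n) univ X x w →
      Win (fa m n) (fb m n) (fc m n) X univ ∅ ((X.card : ℝ) / Q) 0 X x w L) →
    ∀ (X : Finset (Data m n)) (x : Data m n → Fin n → ℝ) (w : Vw (Ix m n)), X ⊆ R →
      X.Nonempty → Node (fa m n) (fb m n) (fc m n) univ X x w →
      Sol (fa m n) (fb m n) (fc m n) univ ((L + 1) * (Q * P)) X x w

end Pool.Agent.K4H92.NO
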